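import Pool.Agent.Q255.L2.StmM
import Pool.Agent.Q255.L2.SNT

set_option autoImplicit false

/-!
# Project L2M (helper255): sup norms of the twists with coefficients bounded on average
-/

namespace Pool.Agent.Q68.L2

open Filter Topology MeasureTheory Finset
open Pool.Agent.Q255.IC Pool.Agent.Q255.IR Pool.Agent.Q255.EP Pool.Agent.Q255.L2 Pool.Agent.Q65.L2

/-- the amplitude -/
theorem ampW (h : S_KW) : ∃ C : ℝ, 0 ≤ C ∧ ∀ T u : ℝ, 1 ≤ T → 0 < u →
    Real.exp (Real.pi * T / 2) * |KB T u| ≤ C / (T * (1 + |T - u|)) ^ (1 / 4 : ℝ) := by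
  obtain ⟨C, hC, h⟩ := h
  refine ⟨√C, Real.sqrt_nonneg _, fun T u hT hu => ?_⟩
  have hx : 0 < T * (1 + |T - u|) := by
    have := abs_nonneg (T - u)
    positivity
  have h1 := h T u hT hu
  have e1 : (Real.exp (Real.pi * T / 2) * |KB T u|) ^ 2 = Real.exp (Real.pi * T) * KB T u ^ 2 := by
    rw [mul_pow, sq_abs, ← Real.exp_nat_mul]
    congr 2
    push_cast
    ring
  have e2 : (√C / (T * (1 + |T - u|)) ^ (1 / 4 : ℝ)) ^ 2 = C / √(T * (1 + |T - u|)) := by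
    rw [div_pow, Real.sq_sqrt hC, ← Real.rpow_natCast, ← Real.rpow_mul hx.le, Real.sqrt_eq_rpow]
    norm_num
  have h2 : 0 ≤ √C / (T * (1 + |T - u|)) ^ (1 / 4 : ℝ) := by positivity
  have h3 : 0 ≤ Real.exp (Real.pi * T / 2) * |KB T u| := by positivity
  rw [← pow_le_pow_iff_left₀ h3 h2 two_ne_zero, e1, e2]
  exact h1

theorem tm_bdW (C T : ℝ) (_hC : 0 ≤ C) (hT : 1 ≤ T)
    (h : ∀ T u : ℝ, 1 ≤ T → 0 < u →
      Real.exp (Real.pi * T / 2) * |KB T u| ≤ C / (T * (1 + |T - u|)) ^ (1 / 4 : ℝ))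
    (a : ℕ → ℝ) (b : Bool) (x y Y : ℝ) (hy : 0 < y) (hyY : y ≤ Y) (n : ℕ) (hn : 1 ≤ n) :
    |tm T a b x y n| ≤ √Y * C * |a n| / (T * (1 + |T - 2 * Real.pi * n * y|)) ^ (1 / 4 : ℝ) := by
  have hn1 : (1 : ℝ) ≤ n := by exact_mod_cast hn
  have hu : 0 < 2 * Real.pi * n * y := by
    have := Real.pi_pos
    positivity
  unfold tm
  rw [abs_mul, abs_mul, abs_mul, abs_mul, Real.abs_exp, abs_of_nonneg (Real.sqrt_nonneg y)]
  have h1 := h T _ hT hu
  have h2 : √y ≤ √Y := Real.sqrt_le_sqrt hyY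
  have hx : 0 < T * (1 + |T - 2 * Real.pi * n * y|) := by
    have := abs_nonneg (T - 2 * Real.pi * n * y)
    positivity
  calc Real.exp (Real.pi * T / 2) * √y * (|a n| * |KB T (2 * Real.pi * n * y)| *
        |Real.cos (2 * Real.pi * n * x - sh b)|)
      ≤ Real.exp (Real.pi * T / 2) * √y * (|a n| * |KB T (2 * Real.pi * n * y)| * 1) := by
        refine mul_le_mul_of_nonneg_left (mul_le_mul_of_nonneg_left (Real.abs_cos_le_one _)
          (by positivity)) (by positivity)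
    _ = √y * |a n| * (Real.exp (Real.pi * T / 2) * |KB T (2 * Real.pi * n * y)|) := by ring
    _ ≤ √Y * |a n| * (C / (T * (1 + |T - 2 * Real.pi * n * y|)) ^ (1 / 4 : ℝ)) := by
        refine mul_le_mul (mul_le_mul_of_nonneg_right h2 (abs_nonneg _)) h1 (by positivity)
          (by positivity)
    _ = _ := by ring

/-- single coefficients -/
theorem coef_pt {ι : Type} {T : ι → ℝ} {a : ι → ℕ → ℝ} (hT : ∀ i, 1 ≤ T i) (ha : Coef T a) :
    ∃ C : ℝ, 0 ≤ C ∧ ∀ (i : ι) (n : ℕ), 1 ≤ n → |a i n| ≤ C * (n * T i) := by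
  obtain ⟨C₁, hC₁⟩ := ha.1 1 one_pos
  refine ⟨|C₁| + 1, by positivity, fun i n hn => ?_⟩
  have hn1 : (1 : ℝ) ≤ n := by exact_mod_cast hn
  have hTi := hT i
  set x : ℝ := n * T i with hx
  have hx1 : (n : ℝ) ≤ x := by
    rw [hx]
    nlinarith
  have hx0 : 1 ≤ x := hn1.trans hx1
  have h1 : a i n ^ 8 ≤ C₁ * x ^ (1 : ℝ) * n := by
    refine le_trans ?_ (hC₁ i n hn)
    exact single_le_sum (f := fun j => a i j ^ 8) (fun j _ => by positivity) (mem_Icc.2 ⟨hn, le_rfl⟩)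
  rw [Real.rpow_one] at h1
  have hc := abs_nonneg C₁
  have hDx : 1 ≤ (|C₁| + 1) * x := by nlinarith
  have h2 : C₁ * x * n ≤ ((|C₁| + 1) * x) ^ 8 := by
    have h3 : ((|C₁| + 1) * x) ^ 2 ≤ ((|C₁| + 1) * x) ^ 8 := pow_le_pow_right₀ hDx (by norm_num)
    have h4 : C₁ * x * n ≤ |C₁| * x * x := by
      refine mul_le_mul (mul_le_mul_of_nonneg_right (le_abs_self _) (by linarith)) hx1 (by linarith)
        (by positivity)
    have h5 : |C₁| * x * x ≤ ((|C₁| + 1) * x) ^ 2 := by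
      have h6 : 0 ≤ x * x := by positivity
      nlinarith [mul_nonneg hc h6, mul_nonneg (mul_nonneg hc hc) h6]
    linarith
  have h7 : |a i n| ^ 8 ≤ ((|C₁| + 1) * x) ^ 8 := by
    have e : |a i n| ^ 8 = a i n ^ 8 := (by decide : Even 8).pow_abs (a i n)
    rw [e]
    exact h1.trans h2
  exact (pow_le_pow_iff_left₀ (abs_nonneg _) (by linarith) (by norm_num)).1 h7

/-- the moment bounds for the members -/
theorem m8_fam {ι : Type} {T : ι → ℝ} {a : ι → ℕ → ℝ} (hT : ∀ i, 1 ≤ T i) (ha : Coef T a) {L m ε : ℝ}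
    (_hL : 0 ≤ L) (hm : 1 ≤ m) (hε : 0 < ε) :
    ∃ C : ℝ, 1 ≤ C ∧ ∀ i, M8 (C * T i ^ (2 * ε)) (4 * m * T i) (fun n => L * a i n) := by
  obtain ⟨C8, hC8⟩ := ha.1 ε hε
  obtain ⟨C4, hC4⟩ := ha.2 ε hε
  have hm0 : 0 ≤ 4 * m := by linarith
  have hP0 : 0 ≤ (4 * m) ^ ε := Real.rpow_nonneg hm0 ε
  refine ⟨1 + (L ^ 8 * |C8| + L ^ 4 * |C4|) * (4 * m) ^ ε, by
    have : 0 ≤ (L ^ 8 * |C8| + L ^ 4 * |C4|) * (4 * m) ^ ε := by positivity
    linarith, fun i => ?_⟩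
  have hTi := hT i
  have hT0 : 0 ≤ T i := by linarith
  have hTε : 0 ≤ T i ^ (2 * ε) := Real.rpow_nonneg hT0 _
  have hpow : ∀ z : ℝ, 0 ≤ z → z ≤ 4 * m * T i * T i → z ^ ε ≤ (4 * m) ^ ε * T i ^ (2 * ε) := by
    intro z hz0 hz
    refine (Real.rpow_le_rpow hz0 hz hε.le).trans (le_of_eq ?_)
    rw [Real.mul_rpow (by positivity) hT0, Real.mul_rpow hm0 hT0, mul_assoc,
      ← Real.rpow_add (by linarith)]
    congr 2
    ring
  refine ⟨fun N hN => ?_, fun R S hRS => ?_⟩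
  · rcases Nat.eq_zero_or_pos N with rfl | hN0
    · simp
    · have h1 := hC8 i N hN0
      have h2 : ∑ n ∈ Icc 1 N, (L * a i n) ^ 8 = L ^ 8 * ∑ n ∈ Icc 1 N, a i n ^ 8 := by
        rw [mul_sum]
        exact sum_congr rfl fun n _ => mul_pow _ _ _
      have h3 := hpow ((N : ℝ) * T i) (by positivity) (mul_le_mul_of_nonneg_right hN hT0)
      simp only
      rw [h2]
      have h4 : C8 * ((N : ℝ) * T i) ^ ε * N ≤ |C8| * ((4 * m) ^ ε * T i ^ (2 * ε)) * N := by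
        refine mul_le_mul_of_nonneg_right ?_ (Nat.cast_nonneg _)
        exact mul_le_mul (le_abs_self _) h3 (by positivity) (abs_nonneg _)
      have h5 : L ^ 8 * ∑ n ∈ Icc 1 N, a i n ^ 8 ≤ L ^ 8 * (|C8| * ((4 * m) ^ ε * T i ^ (2 * ε)) * N) :=
        mul_le_mul_of_nonneg_left (h1.trans h4) (by positivity)
      refine h5.trans ?_
      have h6 : 0 ≤ T i ^ (2 * ε) * N := by positivity
      have h7 : 0 ≤ L ^ 4 * |C4| * ((4 * m) ^ ε) * (T i ^ (2 * ε) * N) := by positivity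
      nlinarith
  · rcases Nat.eq_zero_or_pos R with rfl | hR0
    · simp
    rcases Nat.eq_zero_or_pos S with rfl | hS0
    · simp
    have hR1 : (1 : ℝ) ≤ R := by exact_mod_cast hR0
    have hS1 : (1 : ℝ) ≤ S := by exact_mod_cast hS0
    have h1 := hC4 i R S hR0 hS0
    have h2 : ∑ s ∈ (Icc 1 S).filter Squarefree, ∑ r ∈ Icc 1 R, (L * a i (r ^ 2 * s)) ^ 4 =
        L ^ 4 * ∑ s ∈ (Icc 1 S).filter Squarefree, ∑ r ∈ Icc 1 R, a i (r ^ 2 * s) ^ 4 := by
      rw [mul_sum]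
      refine sum_congr rfl fun s _ => ?_
      rw [mul_sum]
      exact sum_congr rfl fun n _ => mul_pow _ _ _
    have h3 := hpow ((R : ℝ) * S * T i) (by positivity) (by
      refine mul_le_mul_of_nonneg_right (le_trans ?_ hRS) hT0
      have : (R : ℝ) * S ≤ R ^ 2 * S := mul_le_mul_of_nonneg_right (by nlinarith) (by linarith)
      exact this)
    simp only
    rw [h2]
    have h4 : C4 * ((R : ℝ) * S * T i) ^ ε * (R * S) ≤ |C4| * ((4 * m) ^ ε * T i ^ (2 * ε)) * (R * S) := by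
      refine mul_le_mul_of_nonneg_right ?_ (by positivity)
      exact mul_le_mul (le_abs_self _) h3 (by positivity) (abs_nonneg _)
    have h5 : L ^ 4 * ∑ s ∈ (Icc 1 S).filter Squarefree, ∑ r ∈ Icc 1 R, a i (r ^ 2 * s) ^ 4 ≤
        L ^ 4 * (|C4| * ((4 * m) ^ ε * T i ^ (2 * ε)) * (R * S)) :=
      mul_le_mul_of_nonneg_left (h1.trans h4) (by positivity)
    refine h5.trans ?_
    have h6 : 0 ≤ T i ^ (2 * ε) * (R * S) := by positivity
    have h7 : 0 ≤ L ^ 8 * |C8| * ((4 * m) ^ ε) * (T i ^ (2 * ε) * (R * S)) := by positivity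
    nlinarith

/-- the norm of the weights -/
theorem norm_fam (h4 : S_KN2) {ι : Type} {T : ι → ℝ} {a : ι → ℕ → ℝ} (hT : ∀ i, 1 ≤ T i) (ha : Coef T a)
    {L m ε y₀ Y : ℝ} (hL : 0 ≤ L) (hm : 1 ≤ m) (hε : 0 < ε) (hy₀ : 0 < y₀) (hY : y₀ ≤ Y) :
    ∃ C : ℝ, 0 ≤ C ∧ ∀ (i : ι) (y : ℝ) (X : ℕ) (w : ℕ → ℝ), y₀ ≤ y → y ≤ Y →
      (∀ n, |w n| ≤ L * |a i n| / (T i * (1 + |T i - 2 * Real.pi * n * y|)) ^ (1 / 4 : ℝ)) →
      (∀ n : ℕ, m * T i < n → w n = 0) → nn X w ≤ C * T i ^ (5 * ε) := by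
  obtain ⟨CN, hCN0, hKN⟩ := h4 y₀ Y m hy₀ hY hm
  obtain ⟨CB, hCB1, hCB⟩ := m8_fam hT ha (L := L) hL hm hε
  have hpi := Real.pi_pos
  have hY0 : 0 < Y := hy₀.trans_le hY
  set H₀ : ℝ := 2 + 2 * Real.pi * m * Y with hH₀
  have hH₀0 : 0 ≤ H₀ := by positivity
  refine ⟨CN * CB * (1 + 1 / ε) ^ 3 * H₀ ^ (1 / 4 : ℝ), by positivity, fun i y X w hy hyY hw1 hw2 => ?_⟩
  have hTi := hT i
  have hT0 : 0 < T i := by linarith
  set H : ℝ := 1 + T i + 2 * Real.pi * m * T i * Y with hH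
  have hH1 : 1 ≤ H := by
    have : 0 ≤ 2 * Real.pi * m * T i * Y := by positivity
    linarith
  have hy0 : 0 < y := hy₀.trans_le hy
  have hB1 : 1 ≤ CB * T i ^ (2 * ε) := by
    have := Real.one_le_rpow hTi (by positivity : 0 ≤ 2 * ε)
    nlinarith
  have h1 := hKN (T i) y H (CB * T i ^ (2 * ε)) X (fun n => L * a i n) w hTi hy hyY hH1 hB1 (hCB i)
    (fun n => by
      rw [abs_mul, abs_of_nonneg hL]
      exact hw1 n) hw2 (fun n hn => by
      refine hw2 n ?_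
      by_contra hcon
      push Not at hcon
      have h2 : 2 * Real.pi * n * y ≤ 2 * Real.pi * m * T i * Y := by
        have h3 : (n : ℝ) * y ≤ m * T i * Y := mul_le_mul hcon hyY hy0.le (by positivity)
        nlinarith
      have h3 : |T i - 2 * Real.pi * n * y| ≤ T i + 2 * Real.pi * m * T i * Y := by
        have h4 : 0 ≤ 2 * Real.pi * n * y := by positivity
        rw [abs_le]
        constructor <;> linarith
      linarith)
  refine h1.trans ?_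
  have hlog : 1 + Real.log (T i) ≤ (1 + 1 / ε) * T i ^ ε := by
    have g1 := Real.log_le_rpow_div hT0.le hε
    have g2 := Real.one_le_rpow hTi hε.le
    have g3 : T i ^ ε / ε = 1 / ε * T i ^ ε := by ring
    linarith
  have hlog0 : 0 ≤ 1 + Real.log (T i) := by
    have := Real.log_nonneg hTi
    linarith
  have hlog3 : (1 + Real.log (T i)) ^ 3 ≤ (1 + 1 / ε) ^ 3 * T i ^ (3 * ε) := by
    refine (pow_le_pow_left₀ hlog0 hlog 3).trans (le_of_eq ?_)
    rw [mul_pow, ← Real.rpow_natCast (T i ^ ε), ← Real.rpow_mul hT0.le]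
    congr 2
    push_cast
    ring
  have hHT : (H / T i) ^ (1 / 4 : ℝ) ≤ H₀ ^ (1 / 4 : ℝ) := by
    refine Real.rpow_le_rpow (by positivity) ?_ (by norm_num)
    rw [div_le_iff₀ hT0]
    nlinarith
  have e : T i ^ (5 * ε) = T i ^ (2 * ε) * T i ^ (3 * ε) := by
    rw [← Real.rpow_add hT0]
    congr 1
    ring
  calc CN * (CB * T i ^ (2 * ε)) * (1 + Real.log (T i)) ^ 3 * (H / T i) ^ (1 / 4 : ℝ)
      ≤ CN * (CB * T i ^ (2 * ε)) * ((1 + 1 / ε) ^ 3 * T i ^ (3 * ε)) * H₀ ^ (1 / 4 : ℝ) := by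
        refine mul_le_mul (mul_le_mul_of_nonneg_left hlog3 (by positivity)) hHT (by positivity) (by positivity)
    _ = _ := by
        rw [e]
        ring

theorem exists_scale1 (z : ℝ) (hz : 1 ≤ z) : ∃ J : ℕ, z ≤ 2 ^ J ∧ (2 : ℝ) ^ J ≤ 2 * z := by
  obtain ⟨n, h1, h2⟩ := exists_nat_pow_near hz (by norm_num : (1 : ℝ) < 2)
  refine ⟨n + 1, h2.le, ?_⟩
  rw [pow_succ]
  linarith

theorem sn2 (h : S_ENG2) (h1 : S_KODE) (h2 : S_KBB) (h3 : S_KW) (h4 : S_KN2) : S_SN2 := by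
  classical
  intro ν _ hD ι T a A hFam ha
  obtain ⟨hT, hfin⟩ := hFam
  let W : ℕ → ℕ → ℕ → Finset (ℕ → ℝ) := fun m M J =>
    Finset.image (fun q : ι × ℕ × ℕ × Bool =>
      trw (2 ^ J) (tm (T q.1) (trT m 0 (T q.1) (a q.1)) q.2.2.2 ((q.2.1 : ℝ) / 32 ^ J) ((q.2.2.1 : ℝ) / 32 ^ J)))
      (((hfin (2 ^ J) (one_le_pow₀ (by norm_num))).1.toFinset) ×ˢ (range (32 ^ J + 1) ×ˢ
        (range ((M + 1) * 32 ^ J + 1) ×ˢ (univ : Finset Bool))))
  have hmain : ∀ m M : ℕ, ∀ᵐ ω ∂ν, ∀ ε : ℝ, 0 < ε → ∃ C : ℝ, ∀ J, ∀ w ∈ W m M J,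
      |∑ n ∈ Finset.Icc 1 (2 ^ J), w n * cm ω n| ≤
        C * (2 : ℝ) ^ ((0 + ε) * J) * √(nn (2 ^ J) w) := by
    intro m M
    obtain ⟨A', hA'⟩ := card_bd A M
    refine h ν 0 le_rfl zero_le_one (by
      intro ε hε
      have := hD ε hε
      simpa only [zero_add] using this) (W m M) A' ?_ ?_
    · intro J w hw n hn
      obtain ⟨q, _, rfl⟩ := Finset.mem_image.1 hw
      unfold trw
      rw [if_neg (by omega)]
    · intro J
      have hN := (hfin (2 ^ J) (one_le_pow₀ (by norm_num))).2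
      rw [Set.ncard_eq_toFinset_card _ (hfin (2 ^ J) (one_le_pow₀ (by norm_num))).1] at hN
      refine le_trans ?_ (hA' J _ hN)
      refine Nat.cast_le.2 (Finset.card_image_le.trans (le_of_eq ?_))
      rw [card_product, card_product, card_product, card_range, card_range, card_univ,
        Fintype.card_bool]
  simp only [← ae_all_iff] at hmain
  filter_upwards [hmain] with ω hω y₀ y₁ hy₀ hy01 ε hε
  suffices H : ∃ C : ℝ, ∀ (i : ι) (b : Bool) (x y : ℝ), y₀ ≤ y → y ≤ y₁ →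
      |∑' n : ℕ, tm (T i) (a i) b x y (n + 1) * cm ω (n + 1)| ≤ C * T i ^ ε by
    obtain ⟨C, hC⟩ := H
    refine ⟨C, fun i x y hy hy' => ⟨?_, ?_⟩⟩
    · rw [phc_eq]
      exact hC i true x y hy hy'
    · rw [phs_eq]
      exact hC i false x y hy hy'
  have hpi := Real.pi_pos
  set m : ℕ := ⌈1 / y₀⌉₊ with hm
  have hm1 : 1 ≤ (m : ℝ) * y₀ := by
    have := Nat.le_ceil (1 / y₀)
    rw [← hm, div_le_iff₀ hy₀] at this
    exact this
  have hm0 : 1 ≤ m := Nat.one_le_iff_ne_zero.2 fun h0 => by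
    rw [h0] at hm1
    simp only [Nat.cast_zero, zero_mul] at hm1
    linarith
  have hmR : (1 : ℝ) ≤ m := by exact_mod_cast hm0
  have hε2 : 0 < ε / 2 := by positivity
  have hε8 : 0 < ε / 8 := by positivity
  obtain ⟨C₂, hC₂⟩ := hω m ⌈y₁⌉₊ (ε / 2) hε2
  obtain ⟨CB, hCB0, hamp⟩ := amp h2
  obtain ⟨CW, hCW0, hampW⟩ := ampW h3
  obtain ⟨C₁, hC₁0, hC₁⟩ := coef_pt hT ha
  obtain ⟨CN, hCN0, hKN⟩ := norm_fam h4 hT ha (L := √(y₁ + 1) * CW) (m := m) (ε := ε / 8) (y₀ := y₀)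
    (Y := y₁ + 1) (by positivity) hmR hε8 hy₀ (by linarith)
  set K₂ := CB * (1 / √y₀ + √(y₁ + 1) / y₀ + √(y₁ + 1) * (2 * Real.pi)) with hK₂
  have hK₂0 : 0 ≤ K₂ := by positivity
  set C₃ := |C₂| * (2 * m) ^ (ε / 2) * √CN with hC₃
  have hC₃0 : 0 ≤ C₃ := by positivity
  -- the truncated coefficients
  have htr : ∀ i n, trT m 0 (T i) (a i) n = if (n : ℝ) ≤ m * T i then a i n else 0 := by
    intro i n
    unfold trT
    rw [neg_zero, Real.rpow_zero, mul_one]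
  have htr1 : ∀ i n, |trT m 0 (T i) (a i) n| ≤ |a i n| := by
    intro i n
    rw [htr]
    split_ifs
    · exact le_rfl
    · rw [abs_zero]
      exact abs_nonneg _
  -- the net
  have hnet : ∀ (i : ι) (J : ℕ) (b : Bool) (p q : ℕ), T i ≤ 2 ^ J → (2 : ℝ) ^ J ≤ 2 * (m * T i) →
      p < 32 ^ J + 1 → q < (⌈y₁⌉₊ + 1) * 32 ^ J + 1 → y₀ ≤ (q : ℝ) / 32 ^ J →
      (q : ℝ) / 32 ^ J ≤ y₁ + 1 →
      |∑ n ∈ Icc 1 (2 ^ J), tm (T i) (trT m 0 (T i) (a i)) b ((p : ℝ) / 32 ^ J) ((q : ℝ) / 32 ^ J) n *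
        cm ω n| ≤ C₃ * T i ^ ε := by
    intro i J b p q hTJ hTJ' hp hq hq0 hq1
    have hTi := hT i
    have hTi0 : 0 < T i := by linarith
    have hmem : trw (2 ^ J) (tm (T i) (trT m 0 (T i) (a i)) b ((p : ℝ) / 32 ^ J) ((q : ℝ) / 32 ^ J)) ∈
        W m ⌈y₁⌉₊ J := by
      refine Finset.mem_image.2 ⟨(i, p, q, b), ?_, rfl⟩
      rw [mem_product, mem_product, mem_product, Set.Finite.mem_toFinset, mem_range, mem_range]
      exact ⟨hTJ, hp, hq, mem_univ _⟩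
    have h5 := hC₂ J _ hmem
    have h6 : ∑ n ∈ Icc 1 (2 ^ J), trw (2 ^ J) (tm (T i) (trT m 0 (T i) (a i)) b ((p : ℝ) / 32 ^ J)
        ((q : ℝ) / 32 ^ J)) n * cm ω n =
        ∑ n ∈ Icc 1 (2 ^ J), tm (T i) (trT m 0 (T i) (a i)) b ((p : ℝ) / 32 ^ J) ((q : ℝ) / 32 ^ J) n *
          cm ω n := by
      refine sum_congr rfl fun n hn => ?_
      rw [mem_Icc] at hn
      unfold trw
      rw [if_pos hn]
    rw [h6] at h5
    refine h5.trans ?_
    have hnn : nn (2 ^ J) (trw (2 ^ J) (tm (T i) (trT m 0 (T i) (a i)) b ((p : ℝ) / 32 ^ J)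
        ((q : ℝ) / 32 ^ J))) ≤ CN * T i ^ (5 * (ε / 8)) := by
      refine hKN i ((q : ℝ) / 32 ^ J) (2 ^ J) _ hq0 hq1 ?_ ?_
      · intro n
        unfold trw
        have hx : 0 < T i * (1 + |T i - 2 * Real.pi * n * ((q : ℝ) / 32 ^ J)|) := by
          have := abs_nonneg (T i - 2 * Real.pi * n * ((q : ℝ) / 32 ^ J))
          positivity
        split_ifs with hn
        · refine (tm_bdW CW (T i) hCW0 hTi hampW (trT m 0 (T i) (a i)) b _ _ (y₁ + 1) (hy₀.trans_le hq0)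
            hq1 n hn.1).trans ?_
          refine div_le_div_of_nonneg_right ?_ (by positivity)
          exact mul_le_mul_of_nonneg_left (htr1 i n) (by positivity)
        · rw [abs_zero]
          positivity
      · intro n hn
        unfold trw
        split_ifs with hn'
        · unfold tm
          rw [htr, if_neg (not_le.2 hn)]
          ring
        · rfl
    have hsq : √(nn (2 ^ J) (trw (2 ^ J) (tm (T i) (trT m 0 (T i) (a i)) b ((p : ℝ) / 32 ^ J)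
        ((q : ℝ) / 32 ^ J)))) ≤ √CN * T i ^ (ε / 2) := by
      rw [Real.sqrt_le_left (by positivity)]
      refine hnn.trans ?_
      have e1 : (√CN * T i ^ (ε / 2)) ^ 2 = CN * T i ^ ε := by
        rw [mul_pow, Real.sq_sqrt hCN0, ← Real.rpow_natCast, ← Real.rpow_mul hTi0.le]
        congr 2
        push_cast
        ring
      rw [e1]
      refine mul_le_mul_of_nonneg_left ?_ hCN0
      exact Real.rpow_le_rpow_of_exponent_le hTi (by linarith)
    have h7 : (2 : ℝ) ^ ((0 + ε / 2) * J) ≤ (2 * m) ^ (ε / 2) * T i ^ (ε / 2) := by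
      have e2 : (2 : ℝ) ^ ((0 + ε / 2) * J) = ((2 : ℝ) ^ J) ^ (ε / 2) := by
        rw [← Real.rpow_natCast, ← Real.rpow_mul (by norm_num)]
        congr 1
        ring
      rw [e2, ← Real.mul_rpow (by positivity) hTi0.le]
      refine Real.rpow_le_rpow (by positivity) ?_ hε2.le
      linarith
    have e3 : T i ^ ε = T i ^ (ε / 2) * T i ^ (ε / 2) := by
      rw [← Real.rpow_add hTi0]
      congr 1
      ring
    calc C₂ * (2 : ℝ) ^ ((0 + ε / 2) * J) * √(nn (2 ^ J) (trw (2 ^ J) (tm (T i) (trT m 0 (T i) (a i)) b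
          ((p : ℝ) / 32 ^ J) ((q : ℝ) / 32 ^ J))))
        ≤ |C₂| * ((2 * m) ^ (ε / 2) * T i ^ (ε / 2)) * (√CN * T i ^ (ε / 2)) := by
          refine mul_le_mul (mul_le_mul (le_abs_self _) h7 (by positivity) (abs_nonneg _)) hsq
            (Real.sqrt_nonneg _) (by positivity)
      _ = C₃ * T i ^ ε := by
          rw [hC₃, e3]
          ring
  -- the truncated sum
  have htrunc : ∀ (i : ι) (b : Bool) (x y : ℝ), y₀ ≤ y → y ≤ y₁ →
      |∑' n : ℕ, tm (T i) (trT m 0 (T i) (a i)) b x y (n + 1) * cm ω (n + 1)| ≤ C₃ * T i ^ ε + C₁ * K₂ := by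
    intro i b x y hy hyy
    have hTi := hT i
    have hmT : 1 ≤ (m : ℝ) * T i := by nlinarith
    obtain ⟨J, hJ1, hJ2⟩ := exists_scale1 ((m : ℝ) * T i) hmT
    have hTJ : T i ≤ 2 ^ J := by nlinarith
    have h32 : (0 : ℝ) < 32 ^ J := by positivity
    have hy1 : y₁ ≤ ⌈y₁⌉₊ := Nat.le_ceil _
    have hfr0 := Int.fract_nonneg x
    have hfr1 := Int.fract_lt_one x
    set p := ⌊Int.fract x * 32 ^ J⌋₊ with hp
    set q := ⌈y * 32 ^ J⌉₊ with hq
    have hy0 : 0 < y := hy₀.trans_le hy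
    have hpb1 : (p : ℝ) ≤ Int.fract x * 32 ^ J := Nat.floor_le (by positivity)
    have hpb2 : Int.fract x * 32 ^ J < p + 1 := Nat.lt_floor_add_one _
    have hqb1 : y * 32 ^ J ≤ q := Nat.le_ceil _
    have hqb2 : (q : ℝ) < y * 32 ^ J + 1 := Nat.ceil_lt_add_one (by positivity)
    have hp1 : p < 32 ^ J + 1 := by
      have h5 : (p : ℝ) < (32 ^ J + 1 : ℕ) := by
        push_cast
        nlinarith
      exact_mod_cast h5
    have hq1 : q < (⌈y₁⌉₊ + 1) * 32 ^ J + 1 := by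
      have h5 : (q : ℝ) < ((⌈y₁⌉₊ + 1) * 32 ^ J + 1 : ℕ) := by
        push_cast
        have h6 : y * 32 ^ J ≤ (⌈y₁⌉₊ + 1) * 32 ^ J :=
          mul_le_mul_of_nonneg_right (by linarith) h32.le
        linarith
      exact_mod_cast h5
    have h321 : (1 : ℝ) ≤ 32 ^ J := one_le_pow₀ (by norm_num)
    have hy'1 : y ≤ (q : ℝ) / 32 ^ J := by
      rw [le_div_iff₀ h32]
      exact hqb1
    have hy'2 : (q : ℝ) / 32 ^ J ≤ y + 1 / 32 ^ J := by
      rw [div_le_iff₀ h32, add_mul, one_div, inv_mul_cancel₀ h32.ne']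
      exact hqb2.le
    have hd1 : 1 / (32 : ℝ) ^ J ≤ 1 := by
      rw [div_le_one h32]
      exact h321
    have hy'3 : (q : ℝ) / 32 ^ J ≤ y₁ + 1 := by linarith
    have hxx : |Int.fract x - (p : ℝ) / 32 ^ J| ≤ 1 / 32 ^ J := by
      rw [abs_le]
      constructor
      · have h5 : (p : ℝ) / 32 ^ J ≤ Int.fract x := by
          rw [div_le_iff₀ h32]
          exact hpb1
        have h6 : (0 : ℝ) < 1 / 32 ^ J := by positivity
        linarith
      · rw [sub_le_iff_le_add, ← add_div, le_div_iff₀ h32]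
        linarith
    have hyyy : |y - (q : ℝ) / 32 ^ J| ≤ 1 / 32 ^ J := by
      rw [abs_le]
      constructor <;> linarith
    have hnetb := hnet i J b p q hTJ hJ2 hp1 hq1 (hy.trans hy'1) hy'3
    -- the finite sum
    have hdiff : ∀ n ∈ Icc 1 (2 ^ J), |tm (T i) (trT m 0 (T i) (a i)) b x y n * cm ω n -
        tm (T i) (trT m 0 (T i) (a i)) b ((p : ℝ) / 32 ^ J) ((q : ℝ) / 32 ^ J) n * cm ω n| ≤
          C₁ * K₂ / 2 ^ J := by
      intro n hn
      rw [mem_Icc] at hn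
      have hn1 : (1 : ℝ) ≤ n := by exact_mod_cast hn.1
      have hn2 : (n : ℝ) ≤ 2 ^ J := by exact_mod_cast hn.2
      rw [← sub_mul, abs_mul, Pool.Agent.Q13.EP.abs_cm, mul_one, tm_per]
      refine (tm_lip CB (T i) hCB0 hTi (hamp _ hTi).1 (hamp _ hTi).2 (trT m 0 (T i) (a i)) b _ y _ _ y₀
        (y₁ + 1) (1 / 32 ^ J) hy₀ hy (hy.trans hy'1) hy'3 hxx hyyy n hn.1).trans ?_
      rw [← hK₂]
      have h5 : |trT m 0 (T i) (a i) n| ≤ C₁ * (2 ^ J * 2 ^ J) := by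
        refine ((htr1 i n).trans (hC₁ i n hn.1)).trans ?_
        exact mul_le_mul_of_nonneg_left (mul_le_mul hn2 hTJ (by linarith) (by positivity)) hC₁0
      have h6 : T i * n * (1 / 32 ^ J) ≤ 2 ^ J * 2 ^ J * (1 / 32 ^ J) :=
        mul_le_mul_of_nonneg_right (mul_le_mul hTJ hn2 (by linarith) (by positivity)) (by positivity)
      calc |trT m 0 (T i) (a i) n| * K₂ * (T i * n * (1 / 32 ^ J))
          ≤ C₁ * (2 ^ J * 2 ^ J) * K₂ * (2 ^ J * 2 ^ J * (1 / 32 ^ J)) := by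
            refine mul_le_mul (mul_le_mul_of_nonneg_right h5 hK₂0) h6 (by positivity) (by positivity)
        _ = C₁ * K₂ / 2 ^ J := by
            have h7 : (32 : ℝ) ^ J = (2 ^ J) ^ 5 := by
              rw [← pow_mul, mul_comm, pow_mul]
              norm_num
            rw [h7]
            field_simp
    have hfinsum : |∑ n ∈ Icc 1 (2 ^ J), tm (T i) (trT m 0 (T i) (a i)) b x y n * cm ω n| ≤
        C₃ * T i ^ ε + C₁ * K₂ := by
      have h5 : |∑ n ∈ Icc 1 (2 ^ J), tm (T i) (trT m 0 (T i) (a i)) b x y n * cm ω n -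
          ∑ n ∈ Icc 1 (2 ^ J), tm (T i) (trT m 0 (T i) (a i)) b ((p : ℝ) / 32 ^ J) ((q : ℝ) / 32 ^ J) n *
            cm ω n| ≤ C₁ * K₂ := by
        rw [← sum_sub_distrib]
        refine (abs_sum_le_sum_abs _ _).trans ((sum_le_sum hdiff).trans (le_of_eq ?_))
        rw [sum_const, Nat.card_Icc, nsmul_eq_mul, Nat.add_sub_cancel]
        push_cast
        field_simp
      have h6 := abs_sub_abs_le_abs_sub
        (∑ n ∈ Icc 1 (2 ^ J), tm (T i) (trT m 0 (T i) (a i)) b x y n * cm ω n)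
        (∑ n ∈ Icc 1 (2 ^ J), tm (T i) (trT m 0 (T i) (a i)) b ((p : ℝ) / 32 ^ J) ((q : ℝ) / 32 ^ J) n *
          cm ω n)
      linarith
    have hts : ∑' n : ℕ, tm (T i) (trT m 0 (T i) (a i)) b x y (n + 1) * cm ω (n + 1) =
        ∑ n ∈ Icc 1 (2 ^ J), tm (T i) (trT m 0 (T i) (a i)) b x y n * cm ω n := by
      rw [← sum_range_Icc (fun n => tm (T i) (trT m 0 (T i) (a i)) b x y n * cm ω n)]
      refine tsum_eq_sum fun n hn => ?_
      rw [mem_range, not_lt] at hn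
      have h5 : (m : ℝ) * T i < ((n + 1 : ℕ) : ℝ) := by
        have h6 : (2 : ℝ) ^ J ≤ n := by exact_mod_cast hn
        push_cast
        linarith
      unfold tm
      rw [htr, if_neg (not_le.2 h5)]
      ring
    rw [hts]
    exact hfinsum
  -- all coefficients
  set Mc := ∑' n : ℕ, |C₁| * y₀ * (((n + 1 : ℕ) : ℝ) ^ 2 *
    Real.exp (-(Real.pi * y₀) * ((n + 1 : ℕ) : ℝ))) with hMc
  have hM0 : 0 ≤ Mc := tsum_nonneg fun n => by positivity
  refine ⟨C₃ + C₁ * K₂ + Mc, fun i b x y hy hyy => ?_⟩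
  have hTi := hT i
  have hTε : (1 : ℝ) ≤ T i ^ ε := Real.one_le_rpow hTi hε.le
  have h5 := one_member h1 (m := m) (θ := 0) (T := T i) (C := C₁) (a := a i) b le_rfl hTi hy₀ hy hm1 (K := 2)
    (by norm_num) (fun n hn => by
      rw [Real.rpow_zero, mul_one]
      exact hC₁ i n hn) x ω
  rw [Real.rpow_zero, one_mul, ← hMc] at h5
  have h6 := htrunc i b x y hy hyy
  have h7 : 0 ≤ C₁ * K₂ + Mc := by positivity
  nlinarith

end Pool.Agent.Q68.L2
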