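import Pool.Agent.Q255.L2.Stm
import Pool.Agent.Q190.EP.DET
import Pool.Agent.Q13.EP.REC

set_option autoImplicit false

/-!
# Project L2 (helper255): the deterministic recursion started at `k0`
-/

namespace Pool.Agent.Q68.L2

open Filter Topology MeasureTheory Pool.Agent.Q255.IC Pool.Agent.Q255.IR Pool.Agent.Q255.EP Pool.Agent.Q255.L2
open Pool.Agent.Q190.EP
open scoped ENNReal

theorem yq_nonneg (ω : ℕ → Bool) {κ : ℕ → ℝ} (hκ : ∀ k, 0 ≤ κ k) (X k0 j : ℕ) (w : ℕ → ℝ) :
    0 ≤ Yq ω κ X k0 j w := by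
  induction j generalizing w with
  | zero => exact sq_nonneg _
  | succ j ih => exact add_nonneg (ih w) (mul_nonneg (hκ _) (ih _))

/-- splitting an interval into blocks -/
theorem sum_blocks2 (N : ℕ → ℕ) (hN : Monotone N) (k : ℕ) (hk : N 0 ≤ k) (g : ℕ → ℝ) (J : ℕ) :
    ∑ j ∈ Finset.Ico (N 0) (min (N J) k), g j =
      ∑ i ∈ Finset.range J, ∑ j ∈ Finset.Ico (min (N i) k) (min (N (i + 1)) k), g j := by
  induction J with
  | zero => simp
  | succ J ih =>
    rw [Finset.sum_range_succ, ← ih]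
    rw [Finset.sum_Ico_consecutive g (le_min (hN (Nat.zero_le J)) hk) (min_le_min_right k (hN (Nat.le_succ J)))]

theorem det2 : S_DET2 := by
  intro ω X k0 κ κ' N L J T hX hN0 hN hκ' hL hκκ hκ hsum hT hTX hG w hw k
  induction k using Nat.strong_induction_on generalizing w with
  | _ k ih =>
    intro hk0 hk
    obtain ⟨-, -, hS, -, -⟩ := Pool.Agent.Q13.EP.t_REC ω κ X w hX (hTX w hw)
    have hdil : ∀ j, dil j w ∈ T := fun j => hT w hw (pr j) (pr_prime j).one_lt.le
    -- telescoping
    have hSk : ∀ m, Sq ω (k0 + m) X w = Sq ω k0 X w +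
        ∑ j ∈ Finset.Ico k0 (k0 + m), sg ω j * Sq ω j X (dil j w) := by
      intro m
      induction m with
      | zero => simp
      | succ m ihm =>
        rw [← add_assoc, hS (k0 + m), ihm, Finset.sum_Ico_succ_top (Nat.le_add_right k0 m), add_assoc]
    have hNk : ∀ m, Yq ω κ X k0 m w = Sq ω k0 X w ^ 2 +
        ∑ j ∈ Finset.Ico k0 (k0 + m), κ j * Yq ω κ X k0 (j - k0) (dil j w) := by
      intro m
      induction m with
      | zero => simp [Yq]
      | succ m ihm =>
        have h1 : Yq ω κ X k0 (m + 1) w = Yq ω κ X k0 m w + κ (k0 + m) * Yq ω κ X k0 m (dil (k0 + m) w) := rfl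
        rw [← add_assoc, h1, ihm, Finset.sum_Ico_succ_top (Nat.le_add_right k0 m), add_assoc,
          Nat.add_sub_cancel_left]
    have hnn : ∀ j, 0 ≤ Yq ω κ X k0 (j - k0) (dil j w) := fun j => yq_nonneg ω hκ X k0 _ _
    have htr : ∀ j, k0 ≤ j → j < k →
        trunc (√(2 * Yq ω κ X k0 (j - k0) (dil j w))) (Sq ω j X (dil j w)) = Sq ω j X (dil j w) := by
      intro j hj0 hj
      apply trunc_eq
      have h1 := ih j hj (dil j w) (hdil j) hj0 (hj.le.trans hk)
      rw [← Real.sqrt_sq_eq_abs]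
      exact Real.sqrt_le_sqrt h1
    -- the blocks
    let γ : ℕ → ℝ := fun i => ∑ j ∈ Finset.Ico (min (N i) k) (min (N (i + 1)) k),
      κ j * Yq ω κ X k0 (j - k0) (dil j w)
    have hγ : ∀ i, 0 ≤ γ i := fun i => Finset.sum_nonneg fun j _ => mul_nonneg (hκ j) (hnn j)
    have hblock : ∀ i ∈ Finset.range J,
        |∑ j ∈ Finset.Ico (min (N i) k) (min (N (i + 1)) k), sg ω j * Sq ω j X (dil j w)| ≤
          √(4 * L i / κ' i) * √(γ i) := by
      intro i hi
      have hiJ := Finset.mem_range.1 hi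
      rcases Nat.lt_or_ge k (N i) with hki | hki
      · rw [min_eq_right hki.le, Finset.Ico_eq_empty (by
          have : min (N (i + 1)) k ≤ k := min_le_right _ _
          omega)]
        simp only [Finset.sum_empty, abs_zero]
        positivity
      · have hm := hN (Nat.le_succ i)
        have h1 := hG w hw i hiJ (min (N (i + 1)) k) (le_min hm hki) (min_le_left _ _)
        rw [min_eq_left hki]
        have hN0i : k0 ≤ N i := by
          rw [← hN0]
          exact hN (Nat.zero_le i)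
        have h2 : ∑ j ∈ Finset.Ico (N i) (min (N (i + 1)) k), sg ω j * Sq ω j X (dil j w) =
            ∑ j ∈ Finset.Ico (N i) (min (N (i + 1)) k),
              sg ω j * trunc (√(2 * Yq ω κ X k0 (j - k0) (dil j w))) (Sq ω j X (dil j w)) := by
          refine Finset.sum_congr rfl fun j hj => ?_
          rw [htr j (hN0i.trans (Finset.mem_Ico.1 hj).1) ((Finset.mem_Ico.1 hj).2.trans_le (min_le_right _ _))]
        rw [h2]
        refine h1.trans ?_
        rw [← Real.sqrt_mul (by
          have := hL i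
          have := hκ' i
          positivity)]
        refine Real.sqrt_le_sqrt (le_of_eq ?_)
        have h4 : γ i = κ' i * ∑ j ∈ Finset.Ico (N i) (min (N (i + 1)) k), Yq ω κ X k0 (j - k0) (dil j w) := by
          change ∑ j ∈ Finset.Ico (min (N i) k) (min (N (i + 1)) k), κ j * Yq ω κ X k0 (j - k0) (dil j w) = _
          rw [min_eq_left hki, Finset.mul_sum]
          refine Finset.sum_congr rfl fun j hj => ?_
          rw [hκκ i j (Finset.mem_Ico.1 hj).1 ((Finset.mem_Ico.1 hj).2.trans_le (min_le_left _ _))]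
        rw [h4, ← Finset.mul_sum]
        have h5 := (hκ' i).ne'
        field_simp
        ring
    have hkJ : min (N J) k = k := min_eq_right hk
    have hk0' : N 0 ≤ k := by rw [hN0]; exact hk0
    have hsumS : |∑ j ∈ Finset.Ico k0 k, sg ω j * Sq ω j X (dil j w)| ≤
        ∑ i ∈ Finset.range J, √(4 * L i / κ' i) * √(γ i) := by
      have h1 := sum_blocks2 N hN k hk0' (fun j => sg ω j * Sq ω j X (dil j w)) J
      rw [hkJ, hN0] at h1
      rw [h1]
      exact (Finset.abs_sum_le_sum_abs _ _).trans (Finset.sum_le_sum hblock)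
    have hγsum : ∑ i ∈ Finset.range J, γ i = ∑ j ∈ Finset.Ico k0 k, κ j * Yq ω κ X k0 (j - k0) (dil j w) := by
      have h1 := sum_blocks2 N hN k hk0' (fun j => κ j * Yq ω κ X k0 (j - k0) (dil j w)) J
      rw [hkJ, hN0] at h1
      exact h1.symm
    have hCS : (∑ i ∈ Finset.range J, √(4 * L i / κ' i) * √(γ i)) ^ 2 ≤ ∑ i ∈ Finset.range J, γ i := by
      refine (Finset.sum_mul_sq_le_sq_mul_sq _ _ _).trans ?_
      have h1 : ∑ i ∈ Finset.range J, √(4 * L i / κ' i) ^ 2 = ∑ i ∈ Finset.range J, 4 * L i / κ' i := by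
        refine Finset.sum_congr rfl fun i _ => Real.sq_sqrt ?_
        have := hL i
        have := hκ' i
        positivity
      have h2 : ∑ i ∈ Finset.range J, √(γ i) ^ 2 = ∑ i ∈ Finset.range J, γ i :=
        Finset.sum_congr rfl fun i _ => Real.sq_sqrt (hγ i)
      rw [h1, h2]
      have h3 : 0 ≤ ∑ i ∈ Finset.range J, γ i := Finset.sum_nonneg fun i _ => hγ i
      nlinarith
    have e1 := hSk (k - k0)
    have e2 := hNk (k - k0)
    rw [Nat.add_sub_cancel' hk0] at e1 e2
    rw [e1, e2, ← hγsum]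
    have h6 : (∑ j ∈ Finset.Ico k0 k, sg ω j * Sq ω j X (dil j w)) ^ 2 ≤ ∑ i ∈ Finset.range J, γ i := by
      rw [← sq_abs]
      exact (pow_le_pow_left₀ (abs_nonneg _) hsumS 2).trans hCS
    nlinarith [sq_nonneg (Sq ω k0 X w - ∑ j ∈ Finset.Ico k0 k, sg ω j * Sq ω j X (dil j w))]

end Pool.Agent.Q68.L2
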