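import Pool.Agent.Q255.L2.Stm
import Pool.Agent.Q190.EP.Eng2
import Pool.Agent.Q163.HC.Num

set_option autoImplicit false

/-!
# Project L2 (helper255): the small primes almost surely
-/

namespace Pool.Agent.Q68.L2

open Filter Topology MeasureTheory Pool.Agent.Q255.IC Pool.Agent.Q255.IR Pool.Agent.Q255.EP Pool.Agent.Q255.L2
open Pool.Agent.Q190.EP
open scoped ENNReal

/-- the exponent of the small primes at the levels `J` of the dyadic group `i` -/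
noncomputable def ei (α : ℝ) (i : ℕ) : ℕ := ⌈((i : ℝ) + 1) / α⌉₊

theorem ex_eq (α : ℝ) (J : ℕ) : ex α J = ei α (Nat.log 2 J) := rfl

theorem ei_le {α : ℝ} (hα : 0 < α) (i : ℕ) : (ei α i : ℝ) ≤ ((i : ℝ) + 1) / α + 1 :=
  (Nat.ceil_lt_add_one (by positivity)).le

/-- the number of bad words at one level -/
theorem card_one {A ε C : ℝ} {q J i : ℕ} (hC : 1 ≤ C) (hq : |A| + 4 ≤ q * (ε * Real.log 2 / 2))
    (hJ : 2 ^ i ≤ J) : Real.exp (A * ((J : ℝ) + 1)) * (1 / ((2 : ℝ) ^ (ε * J / 2) / C)) ^ q ≤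
      C ^ q * Real.exp |A| * Real.exp (-(4 * 2 ^ i)) := by
  have hJ' : ((2 : ℝ) ^ i) ≤ J := by exact_mod_cast hJ
  have hJ0 : (0 : ℝ) ≤ J := Nat.cast_nonneg _
  have h1 : (1 / ((2 : ℝ) ^ (ε * J / 2) / C)) ^ q = C ^ q * Real.exp (-(q * (ε * Real.log 2 / 2) * J)) := by
    have h2 : (2 : ℝ) ^ (ε * J / 2) = Real.exp (ε * Real.log 2 / 2 * J) := by
      rw [Real.rpow_def_of_pos (by norm_num)]
      congr 1
      ring
    rw [one_div_div, h2, div_pow, ← Real.exp_nat_mul, div_eq_mul_inv, ← Real.exp_neg]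
    congr 2
    ring
  rw [h1]
  have h3 : Real.exp (A * ((J : ℝ) + 1)) * Real.exp (-(q * (ε * Real.log 2 / 2) * J)) ≤
      Real.exp |A| * Real.exp (-(4 * 2 ^ i)) := by
    rw [← Real.exp_add, ← Real.exp_add]
    apply Real.exp_le_exp.2
    have h4 : A * ((J : ℝ) + 1) ≤ |A| * (J + 1) := mul_le_mul_of_nonneg_right (le_abs_self A) (by positivity)
    have h5 : (|A| + 4) * J ≤ q * (ε * Real.log 2 / 2) * J := mul_le_mul_of_nonneg_right hq hJ0
    nlinarith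
  calc Real.exp (A * ((J : ℝ) + 1)) * (C ^ q * Real.exp (-(q * (ε * Real.log 2 / 2) * J)))
      = C ^ q * (Real.exp (A * ((J : ℝ) + 1)) * Real.exp (-(q * (ε * Real.log 2 / 2) * J))) := by ring
    _ ≤ C ^ q * (Real.exp |A| * Real.exp (-(4 * 2 ^ i))) := mul_le_mul_of_nonneg_left h3 (by positivity)
    _ = _ := by ring

/-- the bad words of a dyadic group of levels -/
theorem group (hBON : S_BON) (δ ε A : ℝ) (hε : 0 < ε) (W : ℕ → Finset (ℕ → ℝ))
    (hW : ∀ J, ((W J).card : ℝ) ≤ Real.exp (A * ((J : ℝ) + 1))) :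
    ∃ K : ℝ, 0 < K ∧ ∃ UU : ∀ i : ℕ, Finset (Fin (NN (ei (δ + ε) i)) → Bool),
      (∀ i, ((UU i).card : ℝ) ≤ K * 2 ^ (NN (ei (δ + ε) i)) * Real.exp (-(3 * 2 ^ i))) ∧
      ∀ (i J : ℕ) (w : ℕ → ℝ) (ω : ℕ → Bool), 2 ^ i ≤ J → J < 2 ^ (i + 1) → w ∈ W J → ω ∉ cyl (UU i) →
        Zq ω (NN (ei (δ + ε) i)) (2 ^ J) w ≤ (2 : ℝ) ^ (ε * J) *
          ∑ b ∈ rg (NN (ei (δ + ε) i)) (2 ^ J), ∑ m ∈ sm (NN (ei (δ + ε) i)) (2 ^ J), w (b * m) ^ 2 := by
  classical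
  have hl2 : 0 < Real.log 2 := Real.log_pos (by norm_num)
  obtain ⟨q, hq⟩ := exists_nat_ge ((|A| + 4) / (ε * Real.log 2 / 2))
  rw [div_le_iff₀ (by positivity)] at hq
  have hq0 : q ≠ 0 := by
    rintro rfl
    simp only [Nat.cast_zero, zero_mul] at hq
    have := abs_nonneg A
    linarith
  have hq1 : 1 ≤ q := Nat.one_le_iff_ne_zero.2 hq0
  have hq1' : (1 : ℝ) ≤ q := by exact_mod_cast hq1
  obtain ⟨C, hC1, hC⟩ := Pool.Agent.Q163.HC.pow_omega (2 * (q : ℝ)) (by linarith) (ε / 2) (by linarith)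
  have hC0 : 0 < C := by linarith
  have hl : ∀ J : ℕ, 0 < (2 : ℝ) ^ (ε * J / 2) / C := fun J => by positivity
  have hB := fun (i J : ℕ) (w : ℕ → ℝ) =>
    hBON q (NN (ei (δ + ε) i)) (2 ^ J) w ((2 : ℝ) ^ (ε * J / 2) / C) hq1 (hl J)
  choose U hU1 hU2 using hB
  refine ⟨C ^ q * Real.exp |A|, by positivity,
    fun i => (Finset.Ico (2 ^ i) (2 ^ (i + 1))).biUnion fun J => (W J).biUnion fun w => U i J w, ?_, ?_⟩
  · intro i
    have h1 : (((Finset.Ico (2 ^ i) (2 ^ (i + 1))).biUnion fun J => (W J).biUnion fun w => U i J w).card : ℝ) ≤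
        ∑ J ∈ Finset.Ico (2 ^ i) (2 ^ (i + 1)), ∑ w ∈ W J, ((U i J w).card : ℝ) := by
      have h2 : ((Finset.Ico (2 ^ i) (2 ^ (i + 1))).biUnion fun J => (W J).biUnion fun w => U i J w).card ≤
          ∑ J ∈ Finset.Ico (2 ^ i) (2 ^ (i + 1)), ∑ w ∈ W J, (U i J w).card :=
        Finset.card_biUnion_le.trans (Finset.sum_le_sum fun J _ => Finset.card_biUnion_le)
      exact_mod_cast h2
    refine h1.trans ?_
    have h3 : ∀ J ∈ Finset.Ico (2 ^ i) (2 ^ (i + 1)), ∑ w ∈ W J, ((U i J w).card : ℝ) ≤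
        2 ^ (NN (ei (δ + ε) i)) * (C ^ q * Real.exp |A| * Real.exp (-(4 * 2 ^ i))) := by
      intro J hJ
      have h4 : ∑ w ∈ W J, ((U i J w).card : ℝ) ≤
          ∑ w ∈ W J, 2 ^ (NN (ei (δ + ε) i)) * (1 / ((2 : ℝ) ^ (ε * J / 2) / C)) ^ q :=
        Finset.sum_le_sum fun w _ => hU1 i J w
      rw [Finset.sum_const, nsmul_eq_mul] at h4
      refine h4.trans ?_
      have h5 := card_one (A := A) (ε := ε) hC1 hq (Finset.mem_Ico.1 hJ).1
      have h6 : (0 : ℝ) ≤ (1 / ((2 : ℝ) ^ (ε * J / 2) / C)) ^ q := by positivity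
      calc ((W J).card : ℝ) * (2 ^ (NN (ei (δ + ε) i)) * (1 / ((2 : ℝ) ^ (ε * J / 2) / C)) ^ q)
          ≤ Real.exp (A * ((J : ℝ) + 1)) * (2 ^ (NN (ei (δ + ε) i)) * (1 / ((2 : ℝ) ^ (ε * J / 2) / C)) ^ q) :=
            mul_le_mul_of_nonneg_right (hW J) (by positivity)
        _ = 2 ^ (NN (ei (δ + ε) i)) *
            (Real.exp (A * ((J : ℝ) + 1)) * (1 / ((2 : ℝ) ^ (ε * J / 2) / C)) ^ q) := by ring
        _ ≤ _ := mul_le_mul_of_nonneg_left h5 (by positivity)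
    refine (Finset.sum_le_sum h3).trans ?_
    rw [Finset.sum_const, nsmul_eq_mul, Nat.card_Ico]
    have h7 : ((2 ^ (i + 1) - 2 ^ i : ℕ) : ℝ) = 2 ^ i := by
      have : 2 ^ (i + 1) - 2 ^ i = 2 ^ i := by
        rw [pow_succ]
        omega
      rw [this]
      push_cast
      rfl
    rw [h7]
    have h8 : (2 : ℝ) ^ i * Real.exp (-(4 * 2 ^ i)) ≤ Real.exp (-(3 * 2 ^ i)) := by
      have h9 : (2 : ℝ) ^ i ≤ Real.exp (2 ^ i) := by
        have := Real.add_one_le_exp ((2 : ℝ) ^ i)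
        linarith
      calc (2 : ℝ) ^ i * Real.exp (-(4 * 2 ^ i)) ≤ Real.exp (2 ^ i) * Real.exp (-(4 * 2 ^ i)) :=
            mul_le_mul_of_nonneg_right h9 (Real.exp_pos _).le
        _ = Real.exp (-(3 * 2 ^ i)) := by
            rw [← Real.exp_add]
            congr 1
            ring
    calc (2 : ℝ) ^ i * (2 ^ (NN (ei (δ + ε) i)) * (C ^ q * Real.exp |A| * Real.exp (-(4 * 2 ^ i))))
        = C ^ q * Real.exp |A| * 2 ^ (NN (ei (δ + ε) i)) * ((2 : ℝ) ^ i * Real.exp (-(4 * 2 ^ i))) := by ring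
      _ ≤ _ := mul_le_mul_of_nonneg_left h8 (by positivity)
  · intro i J w ω hJ1 hJ2 hw hω
    have h1 : ω ∉ cyl (U i J w) := by
      intro h
      apply hω
      unfold cyl at h ⊢
      rw [Set.mem_ofPred_eq] at h ⊢
      exact Finset.mem_biUnion.2 ⟨J, Finset.mem_Ico.2 ⟨hJ1, hJ2⟩, Finset.mem_biUnion.2 ⟨w, hw, h⟩⟩
    have h2 : Zq ω (NN (ei (δ + ε) i)) (2 ^ J) w ≤ (2 : ℝ) ^ (ε * J / 2) / C *
        ∑ b ∈ rg (NN (ei (δ + ε) i)) (2 ^ J), ∑ m ∈ sm (NN (ei (δ + ε) i)) (2 ^ J),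
          (2 * (q : ℝ)) ^ m.primeFactors.card * w (b * m) ^ 2 := by
      by_contra hcon
      push Not at hcon
      exact h1 (hU2 i J w hcon)
    refine h2.trans ?_
    have h3 : ∑ b ∈ rg (NN (ei (δ + ε) i)) (2 ^ J), ∑ m ∈ sm (NN (ei (δ + ε) i)) (2 ^ J),
          (2 * (q : ℝ)) ^ m.primeFactors.card * w (b * m) ^ 2 ≤
        C * (2 : ℝ) ^ (ε * J / 2) * ∑ b ∈ rg (NN (ei (δ + ε) i)) (2 ^ J),
          ∑ m ∈ sm (NN (ei (δ + ε) i)) (2 ^ J), w (b * m) ^ 2 := by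
      rw [Finset.mul_sum]
      refine Finset.sum_le_sum fun b _ => ?_
      rw [Finset.mul_sum]
      refine Finset.sum_le_sum fun m hm => ?_
      refine mul_le_mul_of_nonneg_right ?_ (sq_nonneg _)
      unfold sm at hm
      rw [Finset.mem_filter, Finset.mem_Icc] at hm
      refine (hC m hm.1.1 m.primeFactors subset_rfl).trans ?_
      refine mul_le_mul_of_nonneg_left ?_ hC0.le
      have h4 : (m : ℝ) ≤ (2 : ℝ) ^ J := by exact_mod_cast hm.1.2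
      refine (Real.rpow_le_rpow (Nat.cast_nonneg _) h4 (by linarith)).trans (le_of_eq ?_)
      rw [← Real.rpow_natCast, ← Real.rpow_mul (by norm_num)]
      congr 1
      ring
    calc (2 : ℝ) ^ (ε * J / 2) / C * ∑ b ∈ rg (NN (ei (δ + ε) i)) (2 ^ J),
          ∑ m ∈ sm (NN (ei (δ + ε) i)) (2 ^ J), (2 * (q : ℝ)) ^ m.primeFactors.card * w (b * m) ^ 2
        ≤ (2 : ℝ) ^ (ε * J / 2) / C * (C * (2 : ℝ) ^ (ε * J / 2) * ∑ b ∈ rg (NN (ei (δ + ε) i)) (2 ^ J),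
          ∑ m ∈ sm (NN (ei (δ + ε) i)) (2 ^ J), w (b * m) ^ 2) :=
          mul_le_mul_of_nonneg_left h3 (hl J).le
      _ = ((2 : ℝ) ^ (ε * J / 2) * (2 : ℝ) ^ (ε * J / 2)) * ∑ b ∈ rg (NN (ei (δ + ε) i)) (2 ^ J),
          ∑ m ∈ sm (NN (ei (δ + ε) i)) (2 ^ J), w (b * m) ^ 2 := by
          field_simp
      _ = _ := by
          rw [← Real.rpow_add (by norm_num)]
          congr 2
          ring

/-- the small primes -/
theorem small (h : S_BON) : S_SMALL := by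
  intro ν hν δ hδ hD W A hW ε hε
  obtain ⟨K, hK0, UU, hU1, hU2⟩ := group h δ ε A hε W hW
  obtain ⟨CD, hCD0, hCD⟩ := D_bound ν hδ hD hε
  have hα : 0 < δ + ε := by linarith
  set θ : ℝ := (δ + ε / 2) / (δ + ε) with hθ
  have hθ1 : θ < 1 := by
    rw [hθ, div_lt_one hα]
    linarith
  set r : ℝ := (2 : ℝ) ^ (θ - 1) with hr
  have hr0 : 0 < r := by positivity
  have hr1 : r < 1 := Real.rpow_lt_one_of_one_lt_of_neg (by norm_num) (by linarith)
  set C3 : ℝ := CD * (2 : ℝ) ^ (θ + (δ + ε / 2)) with hC3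
  have hC30 : 0 ≤ C3 := by positivity
  obtain ⟨i0, hi0⟩ := exists_nat_ge K
  have hcyl : ∀ i, i0 ≤ i → ν.real (cyl (UU i)) ≤ C3 * r ^ i := by
    intro i hi
    have hi1 : (i0 : ℝ) ≤ i := by exact_mod_cast hi
    have hi2 : (i : ℝ) ≤ (2 : ℝ) ^ i := by exact_mod_cast (Nat.lt_two_pow_self (n := i)).le
    have h2p : (0 : ℝ) < (2 : ℝ) ^ i := by positivity
    have hKe : K ≤ Real.exp (3 * 2 ^ i / 2) := by
      have h1 := Real.add_one_le_exp K
      have h2 : Real.exp K ≤ Real.exp (3 * 2 ^ i / 2) := Real.exp_le_exp.2 (by linarith)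
      linarith
    have h1 := dpi_use ν (NN (ei (δ + ε) i)) (UU i) K (3 * 2 ^ i) (hU1 i) hKe
    have h2 := h1.trans (hCD (ei (δ + ε) i))
    have h3 : (2 : ℝ) ^ ((ei (δ + ε) i : ℝ) * (δ + ε / 2)) ≤ (2 : ℝ) ^ (θ + (δ + ε / 2)) * r ^ i * 2 ^ i := by
      have e1 : (2 : ℝ) ^ (θ + (δ + ε / 2)) * r ^ i * 2 ^ i =
          (2 : ℝ) ^ ((((i : ℝ) + 1) / (δ + ε) + 1) * (δ + ε / 2)) := by
        rw [hr, ← Real.rpow_natCast, ← Real.rpow_mul (by norm_num), ← Real.rpow_natCast,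
          ← Real.rpow_add (by norm_num), ← Real.rpow_add (by norm_num)]
        congr 1
        rw [hθ]
        field_simp
        ring
      rw [e1]
      refine Real.rpow_le_rpow_of_exponent_le (by norm_num) ?_
      exact mul_le_mul_of_nonneg_right (ei_le hα i) (by positivity)
    have h4 : CD * (2 : ℝ) ^ ((ei (δ + ε) i : ℝ) * (δ + ε / 2)) ≤ C3 * r ^ i * 2 ^ i := by
      refine (mul_le_mul_of_nonneg_left h3 hCD0).trans (le_of_eq ?_)
      rw [hC3]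
      ring
    have h5 : ν.real (cyl (UU i)) * 2 ^ i ≤ C3 * r ^ i * 2 ^ i := by
      refine le_trans ?_ (h2.trans h4)
      exact mul_le_mul_of_nonneg_left (by linarith) measureReal_nonneg
    exact le_of_mul_le_mul_right h5 h2p
  have hsum : Summable fun i : ℕ => C3 * r ^ (i + i0) := by
    refine Summable.mul_left C3 ?_
    exact (summable_nat_add_iff i0).2 (summable_geometric_of_lt_one hr0.le hr1)
  have hfin : (∑' i, ν (cyl (UU (i + i0)))) ≠ ∞ := by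
    have h1 : ∑' i, ν (cyl (UU (i + i0))) ≤ ∑' i : ℕ, ENNReal.ofReal (C3 * r ^ (i + i0)) := by
      refine ENNReal.tsum_le_tsum fun i => ?_
      rw [← ofReal_measureReal (measure_ne_top ν (cyl (UU (i + i0))))]
      exact ENNReal.ofReal_le_ofReal (hcyl (i + i0) (Nat.le_add_left i0 i))
    exact ne_top_of_le_ne_top hsum.tsum_ofReal_ne_top h1
  filter_upwards [ae_eventually_notMem hfin] with ω hω
  obtain ⟨i1, hi1⟩ := eventually_atTop.1 hω
  refine eventually_atTop.2 ⟨2 ^ (i1 + i0), fun J hJ w hw => ?_⟩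
  have hJ0 : J ≠ 0 := by
    have : 0 < 2 ^ (i1 + i0) := by positivity
    omega
  have hlog : i1 + i0 ≤ Nat.log 2 J := Nat.le_log_of_pow_le (by norm_num) hJ
  have h1 : ω ∉ cyl (UU (Nat.log 2 J)) := by
    have h2 := hi1 (Nat.log 2 J - i0) (by omega)
    have h3 : Nat.log 2 J - i0 + i0 = Nat.log 2 J := by omega
    rwa [h3] at h2
  exact hU2 (Nat.log 2 J) J w ω (Nat.pow_log_le_self 2 hJ0) (Nat.lt_pow_succ_log_self (by norm_num) J) hw h1

end Pool.Agent.Q68.L2
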