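import Pool.Agent.Q255.L2.Stm
import Pool.Agent.Q190.EP.AZ

set_option autoImplicit false

/-!
# Project L2 (helper255): Azuma's inequality with predictable coefficients, sum of squares at most one
-/

namespace Pool.Agent.Q68.L2

open Filter Topology MeasureTheory Pool.Agent.Q255.IC Pool.Agent.Q255.IR Pool.Agent.Q255.EP Pool.Agent.Q255.L2
open Pool.Agent.Q190.EP
open scoped ENNReal

/-- one step of the induction -/
theorem step2 {n : ℕ} (m : Fin n) (t : ℝ) (F c : (ℕ → Bool) → ℝ) (hF : ∀ s, F (ext (Q190.EP.flip m s)) = F (ext s))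
    (hc : ∀ s, c (ext (Q190.EP.flip m s)) = c (ext s)) :
    ∑ s : Fin n → Bool, Real.exp (F (ext s) + (t * (sg (ext s) m * c (ext s)) - t ^ 2 * c (ext s) ^ 2 / 2)) ≤
      ∑ s : Fin n → Bool, Real.exp (F (ext s)) := by
  have h1 : ∑ s : Fin n → Bool, Real.exp (F (ext s) + (t * (sg (ext s) m * c (ext s)) - t ^ 2 * c (ext s) ^ 2 / 2)) =
      ∑ s : Fin n → Bool, Real.exp (F (ext s)) * (Real.cosh (t * (sg (ext s) m * c (ext s))) *
        Real.exp (-(t ^ 2 * c (ext s) ^ 2 / 2))) := by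
    have h2 : ∑ s : Fin n → Bool, Real.exp (F (ext s) + (t * (sg (ext s) m * c (ext s)) - t ^ 2 * c (ext s) ^ 2 / 2)) =
        ∑ s : Fin n → Bool, Real.exp (F (ext s) + (-(t * (sg (ext s) m * c (ext s))) - t ^ 2 * c (ext s) ^ 2 / 2)) := by
      rw [← sum_flip m]
      refine Finset.sum_congr rfl fun s _ => ?_
      rw [hF, hc, sg_flip]
      congr 1
      ring
    have h3 : ∑ s : Fin n → Bool, Real.exp (F (ext s)) * (Real.cosh (t * (sg (ext s) m * c (ext s))) *
          Real.exp (-(t ^ 2 * c (ext s) ^ 2 / 2))) =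
        (∑ s : Fin n → Bool, Real.exp (F (ext s) + (t * (sg (ext s) m * c (ext s)) - t ^ 2 * c (ext s) ^ 2 / 2)) +
        ∑ s : Fin n → Bool, Real.exp (F (ext s) + (-(t * (sg (ext s) m * c (ext s))) - t ^ 2 * c (ext s) ^ 2 / 2))) / 2 := by
      rw [← Finset.sum_add_distrib, Finset.sum_div]
      refine Finset.sum_congr rfl fun s _ => ?_
      rw [Real.cosh_eq, sub_eq_add_neg, sub_eq_add_neg, Real.exp_add, Real.exp_add, Real.exp_add, Real.exp_add]
      ring
    rw [h3, ← h2]
    ring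
  rw [h1]
  refine Finset.sum_le_sum fun s _ => ?_
  have h5 : (sg (ext s) m) ^ 2 = 1 := by
    rw [← sq_abs, abs_sg, one_pow]
  have h4 : (t * (sg (ext s) m * c (ext s))) ^ 2 = t ^ 2 * (c (ext s)) ^ 2 := by
    rw [mul_pow, mul_pow, h5, one_mul]
  have h6 : Real.cosh (t * (sg (ext s) m * c (ext s))) * Real.exp (-(t ^ 2 * c (ext s) ^ 2 / 2)) ≤ 1 := by
    have h7 := Real.cosh_le_exp_half_sq (t * (sg (ext s) m * c (ext s)))
    rw [h4] at h7
    calc Real.cosh (t * (sg (ext s) m * c (ext s))) * Real.exp (-(t ^ 2 * c (ext s) ^ 2 / 2))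
        ≤ Real.exp (t ^ 2 * c (ext s) ^ 2 / 2) * Real.exp (-(t ^ 2 * c (ext s) ^ 2 / 2)) :=
          mul_le_mul_of_nonneg_right h7 (Real.exp_pos _).le
      _ = 1 := by rw [← Real.exp_add, add_neg_cancel, Real.exp_zero]
  have h8 := mul_le_mul_of_nonneg_left h6 (Real.exp_pos (F (ext s))).le
  rwa [mul_one] at h8

theorem count2 (n a : ℕ) (c : ℕ → (ℕ → Bool) → ℝ) (t : ℝ)
    (hp : ∀ (j : ℕ) (ω ω' : ℕ → Bool), (∀ i < j, ω i = ω' i) → c j ω = c j ω') (b : ℕ) (hb : b ≤ n) :
    ∑ s : Fin n → Bool, Real.exp (∑ j ∈ Finset.Ico a b,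
      (t * (sg (ext s) j * c j (ext s)) - t ^ 2 * c j (ext s) ^ 2 / 2)) ≤ 2 ^ n := by
  induction b with
  | zero => simp
  | succ b ih =>
    rcases Nat.lt_or_ge b a with h | h
    · rw [Finset.Ico_eq_empty (by omega)]
      simp
    · have h1 := step2 (⟨b, hb⟩ : Fin n) t (fun ω => ∑ j ∈ Finset.Ico a b,
          (t * (sg ω j * c j ω) - t ^ 2 * c j ω ^ 2 / 2)) (c b)
        (by
          intro s
          refine Finset.sum_congr rfl fun j hj => ?_
          have hjb : j < b := (Finset.mem_Ico.1 hj).2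
          have h2 : sg (ext (Q190.EP.flip (⟨b, hb⟩ : Fin n) s)) j = sg (ext s) j := by
            unfold sg
            rw [ext_flip_ne _ _ (by simp; omega)]
          rw [h2, hp j _ (ext s) fun i hi => ext_flip_ne _ _ (by simp; omega)])
        (by
          intro s
          exact hp b _ (ext s) fun i hi => ext_flip_ne _ _ (by simp; omega))
      have h2 : ∀ s : Fin n → Bool, ∑ j ∈ Finset.Ico a (b + 1),
            (t * (sg (ext s) j * c j (ext s)) - t ^ 2 * c j (ext s) ^ 2 / 2) =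
          (∑ j ∈ Finset.Ico a b, (t * (sg (ext s) j * c j (ext s)) - t ^ 2 * c j (ext s) ^ 2 / 2)) +
            (t * (sg (ext s) b * c b (ext s)) - t ^ 2 * c b (ext s) ^ 2 / 2) := fun s =>
        Finset.sum_Ico_succ_top h _
      simp only [h2]
      exact h1.trans (ih (by omega))

theorem az2 : S_AZ2 := by
  classical
  intro n a b c L hb hL hc1 hp
  have hdep : ∀ ω : ℕ → Bool, ∑ j ∈ Finset.Ico a b, sg (ext fun k : Fin n => ω k) j * c j (ext fun k : Fin n => ω k) =
      ∑ j ∈ Finset.Ico a b, sg ω j * c j ω := by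
    intro ω
    have h1 : ∀ i < n, ext (fun k : Fin n => ω k) i = ω i := by
      intro i hi
      unfold ext
      simp [hi]
    refine Finset.sum_congr rfl fun j hj => ?_
    have hjn : j < n := (Finset.mem_Ico.1 hj).2.trans_le hb
    have h2 : sg (ext fun k : Fin n => ω k) j = sg ω j := by
      unfold sg
      rw [h1 j hjn]
    rw [h2, hp j _ ω fun i hi => h1 i (hi.trans hjn)]
  set t : ℝ := √(2 * L) with ht
  have ht2 : t ^ 2 = 2 * L := Real.sq_sqrt (by positivity)
  have ht0 : 0 ≤ t := Real.sqrt_nonneg _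
  let Y : (Fin n → Bool) → ℝ := fun s => ∑ j ∈ Finset.Ico a b, sg (ext s) j * c j (ext s)
  have hmain : ∀ τ : ℝ, τ ^ 2 = 2 * L → ∑ s : Fin n → Bool, Real.exp (τ * Y s) ≤ 2 ^ n * Real.exp L := by
    intro τ hτ
    have h1 := count2 n a c τ hp b hb
    have h2 : ∀ s : Fin n → Bool, Real.exp (τ * Y s) ≤ Real.exp L * Real.exp (∑ j ∈ Finset.Ico a b,
        (τ * (sg (ext s) j * c j (ext s)) - τ ^ 2 * c j (ext s) ^ 2 / 2)) := by
      intro s
      rw [← Real.exp_add]
      apply Real.exp_le_exp.2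
      rw [Finset.sum_sub_distrib, ← Finset.mul_sum, ← Finset.sum_div, ← Finset.mul_sum, hτ]
      have h3 := hc1 (ext s)
      have h4 : 2 * L * ∑ j ∈ Finset.Ico a b, c j (ext s) ^ 2 ≤ 2 * L * 1 :=
        mul_le_mul_of_nonneg_left h3 (by positivity)
      have h5 : τ * Y s = τ * ∑ j ∈ Finset.Ico a b, sg (ext s) j * c j (ext s) := rfl
      linarith
    calc ∑ s : Fin n → Bool, Real.exp (τ * Y s) ≤ ∑ s : Fin n → Bool, Real.exp L *
          Real.exp (∑ j ∈ Finset.Ico a b, (τ * (sg (ext s) j * c j (ext s)) - τ ^ 2 * c j (ext s) ^ 2 / 2)) :=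
          Finset.sum_le_sum fun s _ => h2 s
      _ = Real.exp L * ∑ s : Fin n → Bool,
          Real.exp (∑ j ∈ Finset.Ico a b, (τ * (sg (ext s) j * c j (ext s)) - τ ^ 2 * c j (ext s) ^ 2 / 2)) := by
          rw [Finset.mul_sum]
      _ ≤ Real.exp L * 2 ^ n := mul_le_mul_of_nonneg_left h1 (Real.exp_pos _).le
      _ = 2 ^ n * Real.exp L := mul_comm _ _
  refine ⟨Finset.univ.filter fun s => t < |Y s|, ?_, ?_⟩
  · have h1 := hmain t ht2
    have h2 : ∑ s : Fin n → Bool, Real.exp (-(t * Y s)) ≤ 2 ^ n * Real.exp L := by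
      have := hmain (-t) (by rw [neg_sq, ht2])
      simpa only [neg_mul] using this
    have h3 : ((Finset.univ.filter fun s => t < |Y s|).card : ℝ) * Real.exp (2 * L) ≤
        ∑ s : Fin n → Bool, (Real.exp (t * Y s) + Real.exp (-(t * Y s))) := by
      rw [← nsmul_eq_mul, ← Finset.sum_const]
      refine (Finset.sum_le_sum (fun s hs => ?_)).trans
        (Finset.sum_le_sum_of_subset_of_nonneg (Finset.filter_subset _ _) (fun s _ _ => by positivity))
      rw [Finset.mem_filter] at hs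
      have h4 : 2 * L ≤ t * |Y s| := by
        rw [← ht2, sq]
        exact mul_le_mul_of_nonneg_left hs.2.le ht0
      have h5 : Real.exp (2 * L) ≤ Real.exp (t * |Y s|) := Real.exp_le_exp.2 h4
      rcases abs_choice (Y s) with h6 | h6
      · rw [h6] at h5
        have := Real.exp_pos (-(t * Y s))
        linarith
      · rw [h6, mul_neg] at h5
        have := Real.exp_pos (t * Y s)
        linarith
    rw [Finset.sum_add_distrib] at h3
    have h4 : ((Finset.univ.filter fun s => t < |Y s|).card : ℝ) * Real.exp (2 * L) ≤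
        2 * 2 ^ n * Real.exp L := by linarith
    have h5 : Real.exp (-L) * Real.exp (2 * L) = Real.exp L := by
      rw [← Real.exp_add]
      congr 1
      ring
    rw [← h5, ← mul_assoc] at h4
    exact le_of_mul_le_mul_right h4 (Real.exp_pos _)
  · intro ω hω
    unfold cyl
    rw [Set.mem_ofPred_eq] at hω ⊢
    rw [Finset.mem_filter]
    refine ⟨Finset.mem_univ _, ?_⟩
    change t < |∑ j ∈ Finset.Ico a b, sg (ext fun k : Fin n => ω k) j * c j (ext fun k : Fin n => ω k)|
    rw [hdep]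
    exact hω

end Pool.Agent.Q68.L2
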