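import Pool.Agent.Q255.L2.StmM

set_option autoImplicit false

/-!
# Project L2M (helper255): square products with weights
-/

namespace Pool.Agent.Q68.L2

open Filter Topology MeasureTheory Finset
open Pool.Agent.Q255.IC Pool.Agent.Q255.IR Pool.Agent.Q255.EP Pool.Agent.Q255.L2

theorem prod_add_le {ι : Type} [DecidableEq ι] (s : Finset ι) (p q : ι → ℝ) (hp : ∀ i, 0 ≤ p i) (hq : ∀ i, 0 ≤ q i) :
    ∏ i ∈ s, (p i + q i) ≤ ∏ i ∈ s, p i + ∑ j ∈ s, q j * ∏ i ∈ s.erase j, (p i + q i) := by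
  induction s using Finset.induction_on with
  | empty => simp
  | insert a s ha ih =>
    rw [prod_insert ha, prod_insert ha, sum_insert ha, erase_insert ha]
    have h1 : ∑ j ∈ s, q j * ∏ i ∈ (insert a s).erase j, (p i + q i) =
        ∑ j ∈ s, (p a + q a) * (q j * ∏ i ∈ s.erase j, (p i + q i)) := by
      refine sum_congr rfl fun j hj => ?_
      have hja : a ≠ j := by
        rintro rfl
        exact ha hj
      rw [erase_insert_of_ne hja, prod_insert (fun h => ha (mem_of_mem_erase h))]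
      ring
    rw [h1, ← mul_sum]
    have h2 : 0 ≤ ∑ j ∈ s, q j * ∏ i ∈ s.erase j, (p i + q i) :=
      sum_nonneg fun j _ => mul_nonneg (hq j) (prod_nonneg fun i _ => add_nonneg (hp i) (hq i))
    have h4 := mul_le_mul_of_nonneg_left ih (hp a)
    nlinarith [mul_nonneg (hq a) h2]

theorem nn_nonneg (X : ℕ) (w : ℕ → ℝ) : 0 ≤ nn X w := sum_nonneg fun _ _ => sq_nonneg _

theorem nn_add (X : ℕ) (p q : ℕ → ℝ) : nn X (fun n => p n + q n) ≤ 2 * nn X p + 2 * nn X q := by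
  unfold nn
  rw [mul_sum, mul_sum, ← sum_add_distrib]
  refine sum_le_sum fun s _ => ?_
  have h1 : ∑ r ∈ Icc 1 X, |p (r ^ 2 * s) + q (r ^ 2 * s)| ≤
      ∑ r ∈ Icc 1 X, |p (r ^ 2 * s)| + ∑ r ∈ Icc 1 X, |q (r ^ 2 * s)| := by
    rw [← sum_add_distrib]
    exact sum_le_sum fun r _ => abs_add_le _ _
  have h2 : 0 ≤ ∑ r ∈ Icc 1 X, |p (r ^ 2 * s) + q (r ^ 2 * s)| := sum_nonneg fun _ _ => abs_nonneg _
  have h3 := pow_le_pow_left₀ h2 h1 2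
  nlinarith [sq_nonneg (∑ r ∈ Icc 1 X, |p (r ^ 2 * s)| - ∑ r ∈ Icc 1 X, |q (r ^ 2 * s)|)]

theorem sqrt_nn_add {X : ℕ} {p q : ℕ → ℝ} {ρ Λ : ℝ} (hρ : 0 ≤ ρ) (hΛ : ρ ≤ Λ) (h1 : nn X p ≤ Λ ^ 2)
    (h2 : nn X q ≤ ρ ^ 2) : √(nn X fun n => p n + q n) ≤ 2 * Λ := by
  rw [Real.sqrt_le_left (by linarith)]
  have h3 := nn_add X p q
  nlinarith

/-- one factor is small in norm -/
theorem partB {ι : Type} [Fintype ι] [DecidableEq ι] {C ε : ℝ} (hC : 0 ≤ C) (X : ℕ)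
    (hHY : ∀ w : ι → ℕ → ℝ, (∀ i n, 0 ≤ w i n) → (∀ i n, X < n → w i n = 0) →
      ∑ t ∈ (Fintype.piFinset fun _ : ι => Icc 1 X).filter (fun t => IsSquare (∏ i, t i)), ∏ i, w i (t i) ≤
        C * (X : ℝ) ^ ε * ∏ i, √(nn X (w i)))
    (p q : ι → ℕ → ℝ) {ρ Λ : ℝ} (hρ : 0 ≤ ρ) (hΛ : ρ ≤ Λ) (hp : ∀ i n, 0 ≤ p i n) (hq : ∀ i n, 0 ≤ q i n)
    (hp0 : ∀ i n, X < n → p i n = 0) (hq0 : ∀ i n, X < n → q i n = 0)
    (hpn : ∀ i, nn X (p i) ≤ Λ ^ 2) (hqn : ∀ i, nn X (q i) ≤ ρ ^ 2) (j : ι) :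
    ∑ t ∈ (Fintype.piFinset fun _ : ι => Icc 1 X).filter (fun t => IsSquare (∏ i, t i)),
      q j (t j) * ∏ i ∈ univ.erase j, (p i (t i) + q i (t i)) ≤
        C * (X : ℝ) ^ ε * (ρ * (2 * Λ) ^ (Fintype.card ι - 1)) := by
  have hΛ0 : 0 ≤ Λ := hρ.trans hΛ
  let w : ι → ℕ → ℝ := fun i n => if i = j then q i n else p i n + q i n
  have hw1 : ∀ i n, 0 ≤ w i n := by
    intro i n
    show 0 ≤ if i = j then q i n else p i n + q i n
    split_ifs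
    · exact hq i n
    · exact add_nonneg (hp i n) (hq i n)
  have hw2 : ∀ i n, X < n → w i n = 0 := by
    intro i n hn
    show (if i = j then q i n else p i n + q i n) = 0
    split_ifs
    · exact hq0 i n hn
    · rw [hp0 i n hn, hq0 i n hn, add_zero]
  have hwj : w j = q j := by
    funext n
    show (if j = j then q j n else p j n + q j n) = q j n
    rw [if_pos rfl]
  have hwi : ∀ i ∈ univ.erase j, w i = fun n => p i n + q i n := by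
    intro i hi
    funext n
    show (if i = j then q i n else p i n + q i n) = _
    rw [if_neg (ne_of_mem_erase hi)]
  have h1 := hHY w hw1 hw2
  have e1 : ∀ t : ι → ℕ, ∏ i, w i (t i) = q j (t j) * ∏ i ∈ univ.erase j, (p i (t i) + q i (t i)) := by
    intro t
    rw [← mul_prod_erase univ (fun i => w i (t i)) (mem_univ j), hwj]
    congr 1
    refine prod_congr rfl fun i hi => ?_
    rw [hwi i hi]
  have e2 : ∏ i, √(nn X (w i)) = √(nn X (q j)) * ∏ i ∈ univ.erase j, √(nn X fun n => p i n + q i n) := by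
    rw [← mul_prod_erase univ (fun i => √(nn X (w i))) (mem_univ j), hwj]
    congr 1
    refine prod_congr rfl fun i hi => ?_
    rw [hwi i hi]
  simp only [e1] at h1
  rw [e2] at h1
  refine h1.trans (mul_le_mul_of_nonneg_left ?_ (by positivity))
  have h2 : √(nn X (q j)) ≤ ρ := by
    rw [Real.sqrt_le_left hρ]
    exact hqn j
  have h3 : ∏ i ∈ univ.erase j, √(nn X fun n => p i n + q i n) ≤ ∏ _i ∈ univ.erase j, (2 * Λ) :=
    prod_le_prod (fun i _ => Real.sqrt_nonneg _) fun i _ => sqrt_nn_add hρ hΛ (hpn i) (hqn i)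
  rw [prod_const, card_erase_of_mem (mem_univ j), card_univ] at h3
  exact mul_le_mul h2 h3 (prod_nonneg fun i _ => Real.sqrt_nonneg _) hρ

theorem sum_T {ι₁ ι₂ : Type} {S : Finset ((ι₁ → ℕ) × (ι₂ → ℕ))} {U : Finset (ι₁ ⊕ ι₂ → ℕ)}
    (h : ∀ t ∈ S, Sum.elim t.1 t.2 ∈ U) (F : (ι₁ ⊕ ι₂ → ℕ) → ℝ) (hF : ∀ u, 0 ≤ F u) :
    ∑ t ∈ S, F (Sum.elim t.1 t.2) ≤ ∑ u ∈ U, F u := by
  classical
  have hinj : Set.InjOn (fun t : (ι₁ → ℕ) × (ι₂ → ℕ) => Sum.elim t.1 t.2) S := by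
    intro t _ t' _ htt
    have h1 : t.1 = t'.1 := funext fun i => congrFun htt (Sum.inl i)
    have h2 : t.2 = t'.2 := funext fun i => congrFun htt (Sum.inr i)
    exact Prod.ext h1 h2
  rw [← sum_image (f := F) hinj]
  refine sum_le_sum_of_subset_of_nonneg ?_ fun u _ _ => hF u
  intro u hu
  obtain ⟨t, ht, rfl⟩ := mem_image.1 hu
  exact h t ht

/-- the terms without small factors -/
theorem partA {ι₁ ι₂ : Type} [Fintype ι₁] [Fintype ι₂] [DecidableEq ι₁] [DecidableEq ι₂] {C C₁ c ε : ℝ}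
    (hC : 0 ≤ C) (hC₁ : 0 ≤ C₁) (hε : 0 ≤ ε) (N X : ℕ) (hN : 1 ≤ N) (hNX : N ≤ X)
    (hHY : ∀ w : ι₁ ⊕ ι₂ → ℕ → ℝ, (∀ i n, 0 ≤ w i n) → (∀ i n, N < n → w i n = 0) →
      ∑ t ∈ (Fintype.piFinset fun _ : ι₁ ⊕ ι₂ => Icc 1 N).filter (fun t => IsSquare (∏ i, t i)), ∏ i, w i (t i) ≤
        C * (N : ℝ) ^ ε * ∏ i, √(nn N (w i)))
    (S SN : Finset ((ι₁ → ℕ) × (ι₂ → ℕ)))
    (hS : ∀ t ∈ S, (∀ i, t.1 i ≤ N) → (∀ i, t.2 i ≤ N) → t ∈ SN)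
    (hSN : ∀ t ∈ SN, Sum.elim t.1 t.2 ∈
      (Fintype.piFinset fun _ : ι₁ ⊕ ι₂ => Icc 1 N).filter (fun t => IsSquare (∏ i, t i)))
    (hcard : (SN.card : ℝ) ≤ C₁ * (N : ℝ) ^ (((Fintype.card ι₁ : ℝ) + Fintype.card ι₂) / 2 - c))
    (p b : ι₁ ⊕ ι₂ → ℕ → ℝ) {σ B : ℝ} (hσ : 0 ≤ σ) (hB : 1 ≤ B) (hp : ∀ i n, 0 ≤ p i n)
    (hb : ∀ i n, 0 ≤ b i n) (hpb : ∀ i n, p i n ≤ σ * b i n) (hp0 : ∀ i n, N < n → p i n = 0)
    (hb0 : ∀ i n, N < n → b i n = 0) (hbn : ∀ i, nn N (fun n => b i n ^ 2) ≤ B ^ 2 * N) :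
    ∑ t ∈ S, ∏ i, p i (Sum.elim t.1 t.2 i) ≤ √(C₁ * C) * (X : ℝ) ^ ε *
      (σ ^ (Fintype.card ι₁ + Fintype.card ι₂) * B ^ (Fintype.card ι₁ + Fintype.card ι₂) *
        (N : ℝ) ^ (((Fintype.card ι₁ : ℝ) + Fintype.card ι₂) / 2 - c / 2)) := by
  classical
  set k : ℕ := Fintype.card ι₁ + Fintype.card ι₂ with hk
  have hkR : ((Fintype.card ι₁ : ℝ) + Fintype.card ι₂) = k := by
    rw [hk]
    push_cast
    rfl
  rw [hkR] at hcard ⊢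
  have hN0 : (0 : ℝ) < N := by exact_mod_cast hN
  have hN1 : (1 : ℝ) ≤ N := by exact_mod_cast hN
  have hNX' : (N : ℝ) ≤ X := by exact_mod_cast hNX
  have hcardι : Fintype.card (ι₁ ⊕ ι₂) = k := Fintype.card_sum
  -- only the solutions up to `N`
  have h1 : ∑ t ∈ S, ∏ i, p i (Sum.elim t.1 t.2 i) ≤ σ ^ k * ∑ t ∈ SN, ∏ i, b i (Sum.elim t.1 t.2 i) := by
    have h2 : ∑ t ∈ S, ∏ i, p i (Sum.elim t.1 t.2 i) = ∑ t ∈ S.filter (fun t => t ∈ SN), ∏ i, p i (Sum.elim t.1 t.2 i) := by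
      symm
      refine sum_subset (filter_subset _ _) fun t ht ht' => ?_
      rw [mem_filter, not_and] at ht'
      have h3 := ht' ht
      by_contra hne
      apply h3
      have h4 : ∀ i, Sum.elim t.1 t.2 i ≤ N := by
        intro i
        by_contra hcon
        exact hne (prod_eq_zero (mem_univ i) (hp0 i _ (not_le.1 hcon)))
      exact hS t ht (fun i => h4 (Sum.inl i)) fun i => h4 (Sum.inr i)
    rw [h2]
    have h5 : ∑ t ∈ S.filter (fun t => t ∈ SN), ∏ i, p i (Sum.elim t.1 t.2 i) ≤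
        ∑ t ∈ SN, ∏ i, p i (Sum.elim t.1 t.2 i) := by
      refine sum_le_sum_of_subset_of_nonneg (fun t ht => (mem_filter.1 ht).2) fun t _ _ =>
        prod_nonneg fun i _ => hp i _
    refine h5.trans ?_
    rw [mul_sum]
    refine sum_le_sum fun t _ => ?_
    have h6 : ∏ i, p i (Sum.elim t.1 t.2 i) ≤ ∏ i, (σ * b i (Sum.elim t.1 t.2 i)) :=
      prod_le_prod (fun i _ => hp i _) fun i _ => hpb i _
    rwa [prod_mul_distrib, prod_const, card_univ, hcardι] at h6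
  -- Cauchy and Schwarz
  have h2 : (∑ t ∈ SN, ∏ i, b i (Sum.elim t.1 t.2 i)) ^ 2 ≤
      C₁ * (N : ℝ) ^ ((k : ℝ) / 2 - c) * (C * (N : ℝ) ^ ε * (B ^ k * (N : ℝ) ^ ((k : ℝ) / 2))) := by
    have h3 : (∑ t ∈ SN, ∏ i, b i (Sum.elim t.1 t.2 i)) ^ 2 ≤
        SN.card * ∑ t ∈ SN, (∏ i, b i (Sum.elim t.1 t.2 i)) ^ 2 := sq_sum_le_card_mul_sum_sq
    refine h3.trans ?_
    have h4 : ∑ t ∈ SN, (∏ i, b i (Sum.elim t.1 t.2 i)) ^ 2 ≤
        C * (N : ℝ) ^ ε * (B ^ k * (N : ℝ) ^ ((k : ℝ) / 2)) := by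
      have h5 := sum_T hSN (fun u => ∏ i, (fun n => b i n ^ 2) (u i)) fun u => prod_nonneg fun i _ => sq_nonneg _
      have h6 := hHY (fun i n => b i n ^ 2) (fun i n => sq_nonneg _) (fun i n hn => by
        rw [hb0 i n hn]
        norm_num)
      have h7 : ∏ i, √(nn N fun n => b i n ^ 2) ≤ B ^ k * (N : ℝ) ^ ((k : ℝ) / 2) := by
        have h8 : ∏ i, √(nn N fun n => b i n ^ 2) ≤ ∏ _i : ι₁ ⊕ ι₂, (B * (N : ℝ) ^ (1 / 2 : ℝ)) := by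
          refine prod_le_prod (fun i _ => Real.sqrt_nonneg _) fun i _ => ?_
          refine (Real.sqrt_le_sqrt (hbn i)).trans (le_of_eq ?_)
          rw [Real.sqrt_mul (by positivity), Real.sqrt_sq (by linarith), Real.sqrt_eq_rpow]
        rw [prod_const, card_univ, hcardι, mul_pow] at h8
        refine h8.trans (le_of_eq ?_)
        rw [← Real.rpow_natCast ((N : ℝ) ^ (1 / 2 : ℝ)), ← Real.rpow_mul hN0.le]
        congr 2
        ring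
      calc ∑ t ∈ SN, (∏ i, b i (Sum.elim t.1 t.2 i)) ^ 2
          = ∑ t ∈ SN, (fun u : ι₁ ⊕ ι₂ → ℕ => ∏ i, (fun n => b i n ^ 2) (u i)) (Sum.elim t.1 t.2) := by
            refine sum_congr rfl fun t _ => ?_
            simp only
            rw [prod_pow]
        _ ≤ _ := h5
        _ ≤ C * (N : ℝ) ^ ε * ∏ i, √(nn N fun n => b i n ^ 2) := h6
        _ ≤ _ := mul_le_mul_of_nonneg_left h7 (by positivity)
    exact mul_le_mul hcard h4 (sum_nonneg fun t _ => sq_nonneg _) (by positivity)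
  have h3 : ∑ t ∈ SN, ∏ i, b i (Sum.elim t.1 t.2 i) ≤
      √(C₁ * C) * (X : ℝ) ^ ε * (B ^ k * (N : ℝ) ^ ((k : ℝ) / 2 - c / 2)) := by
    have h4 : (√(C₁ * C) * (X : ℝ) ^ ε * (B ^ k * (N : ℝ) ^ ((k : ℝ) / 2 - c / 2))) ^ 2 =
        C₁ * C * ((X : ℝ) ^ ε * (X : ℝ) ^ ε) * ((B ^ k * B ^ k) * (N : ℝ) ^ ((k : ℝ) - c)) := by
      have e1 : ((N : ℝ) ^ ((k : ℝ) / 2 - c / 2)) ^ 2 = (N : ℝ) ^ ((k : ℝ) - c) := by
        rw [← Real.rpow_natCast, ← Real.rpow_mul hN0.le]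
        congr 1
        push_cast
        ring
      rw [mul_pow, mul_pow, mul_pow, Real.sq_sqrt (mul_nonneg hC₁ hC), e1]
      ring
    have h5 : C₁ * (N : ℝ) ^ ((k : ℝ) / 2 - c) * (C * (N : ℝ) ^ ε * (B ^ k * (N : ℝ) ^ ((k : ℝ) / 2))) =
        C₁ * C * (N : ℝ) ^ ε * (B ^ k * (N : ℝ) ^ ((k : ℝ) - c)) := by
      have e2 : (N : ℝ) ^ ((k : ℝ) - c) = (N : ℝ) ^ ((k : ℝ) / 2 - c) * (N : ℝ) ^ ((k : ℝ) / 2) := by
        rw [← Real.rpow_add hN0]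
        congr 1
        ring
      rw [e2]
      ring
    have hXε : (N : ℝ) ^ ε ≤ (X : ℝ) ^ ε := Real.rpow_le_rpow hN0.le hNX' hε
    have hXε1 : 1 ≤ (X : ℝ) ^ ε := Real.one_le_rpow (hN1.trans hNX') hε
    have hBk : 1 ≤ B ^ k := one_le_pow₀ hB
    have hR0 : 0 ≤ √(C₁ * C) * (X : ℝ) ^ ε * (B ^ k * (N : ℝ) ^ ((k : ℝ) / 2 - c / 2)) := by positivity
    have hL0 : 0 ≤ ∑ t ∈ SN, ∏ i, b i (Sum.elim t.1 t.2 i) := sum_nonneg fun t _ => prod_nonneg fun i _ => hb i _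
    rw [← pow_le_pow_iff_left₀ hL0 hR0 two_ne_zero]
    refine h2.trans ?_
    rw [h4, h5]
    have h6 : (N : ℝ) ^ ε ≤ (X : ℝ) ^ ε * (X : ℝ) ^ ε := hXε.trans (le_mul_of_one_le_right (by positivity) hXε1)
    have h7 : B ^ k ≤ B ^ k * B ^ k := le_mul_of_one_le_right (by positivity) hBk
    gcongr
  calc ∑ t ∈ S, ∏ i, p i (Sum.elim t.1 t.2 i) ≤ σ ^ k * ∑ t ∈ SN, ∏ i, b i (Sum.elim t.1 t.2 i) := h1
    _ ≤ σ ^ k * (√(C₁ * C) * (X : ℝ) ^ ε * (B ^ k * (N : ℝ) ^ ((k : ℝ) / 2 - c / 2))) :=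
        mul_le_mul_of_nonneg_left h3 (by positivity)
    _ = _ := by ring

theorem wc (h1 : S_HY) (h2 : S_CLH) : S_WC := by
  classical
  intro ι₁ ι₂ _ _ _ _ e₁ e₂ he₁ he₂ hcard
  obtain ⟨c, C₁, hc, hC₁, hCL⟩ := h2 ι₁ ι₂ e₁ e₂ he₁ he₂
  refine ⟨c / 2, by positivity, fun ε hε => ?_⟩
  obtain ⟨C, hC, hHY⟩ := h1 (ι₁ ⊕ ι₂) ε hε
  set k : ℕ := Fintype.card ι₁ + Fintype.card ι₂ with hk
  have hcardι : Fintype.card (ι₁ ⊕ ι₂) = k := Fintype.card_sum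
  refine ⟨√(C₁ * C) + k * (C * 2 ^ (k - 1)), by positivity, ?_⟩
  intro N X h₁ h₂ p₁ q₁ b₁ p₂ q₂ b₂ σ B ρ Λ hN hNX hσ hB hρ hΛ hpq₁ hpq₂ h0₁ h0₂ hq0₁ hq0₂ hn₁ hn₂
  have hX : 1 ≤ X := hN.trans hNX
  have hΛ0 : 0 ≤ Λ := hρ.trans hΛ
  let p : ι₁ ⊕ ι₂ → ℕ → ℝ := Sum.elim p₁ p₂
  let q : ι₁ ⊕ ι₂ → ℕ → ℝ := Sum.elim q₁ q₂
  let b : ι₁ ⊕ ι₂ → ℕ → ℝ := Sum.elim b₁ b₂
  have hp : ∀ i n, 0 ≤ p i n := by
    rintro (i | i) n
    · exact (hpq₁ i n).1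
    · exact (hpq₂ i n).1
  have hq : ∀ i n, 0 ≤ q i n := by
    rintro (i | i) n
    · exact (hpq₁ i n).2.1
    · exact (hpq₂ i n).2.1
  have hb : ∀ i n, 0 ≤ b i n := by
    rintro (i | i) n
    · exact (hpq₁ i n).2.2.1
    · exact (hpq₂ i n).2.2.1
  have hpb : ∀ i n, p i n ≤ σ * b i n := by
    rintro (i | i) n
    · exact (hpq₁ i n).2.2.2
    · exact (hpq₂ i n).2.2.2
  have hp0 : ∀ i n, N < n → p i n = 0 := by
    rintro (i | i) n hn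
    · exact (h0₁ i n hn).1
    · exact (h0₂ i n hn).1
  have hb0 : ∀ i n, N < n → b i n = 0 := by
    rintro (i | i) n hn
    · exact (h0₁ i n hn).2
    · exact (h0₂ i n hn).2
  have hq0 : ∀ i n, X < n → q i n = 0 := by
    rintro (i | i) n hn
    · exact hq0₁ i n hn
    · exact hq0₂ i n hn
  have hbn : ∀ i, nn N (fun n => b i n ^ 2) ≤ B ^ 2 * N := by
    rintro (i | i)
    · exact (hn₁ i).1
    · exact (hn₂ i).1
  have hqn : ∀ i, nn X (q i) ≤ ρ ^ 2 := by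
    rintro (i | i)
    · exact (hn₁ i).2.1
    · exact (hn₂ i).2.1
  have hpn : ∀ i, nn X (p i) ≤ Λ ^ 2 := by
    rintro (i | i)
    · exact (hn₁ i).2.2
    · exact (hn₂ i).2.2
  have key : ∀ S : Finset ((ι₁ → ℕ) × (ι₂ → ℕ)), (∀ t, t ∈ S ↔ ((∀ i, t.1 i ∈ Icc 1 X) ∧ ∀ i, t.2 i ∈ Icc 1 X) ∧
      (∑ i, e₁ i * (t.1 i : ℤ) = h₁ ∧ ∑ i, e₂ i * (t.2 i : ℤ) = h₂ ∧
        IsSquare ((∏ i, t.1 i) * ∏ i, t.2 i) ∧ ¬ (Bal e₁ t.1 ∧ Bal e₂ t.2))) →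
      ∑ t ∈ S, (∏ i, (p₁ i (t.1 i) + q₁ i (t.1 i))) * ∏ i, (p₂ i (t.2 i) + q₂ i (t.2 i)) ≤
        (√(C₁ * C) + k * (C * 2 ^ (k - 1))) * (X : ℝ) ^ ε * (σ ^ k * B ^ k *
          (N : ℝ) ^ (((Fintype.card ι₁ : ℝ) + Fintype.card ι₂) / 2 - c / 2) + ρ * Λ ^ (k - 1)) := by
    intro S hS
    have hSX : ∀ t ∈ S, Sum.elim t.1 t.2 ∈
        (Fintype.piFinset fun _ : ι₁ ⊕ ι₂ => Icc 1 X).filter (fun t => IsSquare (∏ i, t i)) := by
      intro t ht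
      obtain ⟨⟨g1, g2⟩, -, -, g3, -⟩ := (hS t).1 ht
      rw [mem_filter, Fintype.mem_piFinset]
      refine ⟨?_, ?_⟩
      · rintro (i | i)
        · exact g1 i
        · exact g2 i
      · rw [Fintype.prod_sum_type]
        exact g3
    have hA := partA (c := c) hC hC₁.le hε.le N X hN hNX (fun w => hHY N w hN) S _
      (by
        intro t ht g1 g2
        obtain ⟨⟨g3, g4⟩, g5⟩ := (hS t).1 ht
        rw [mem_filter, mem_product, Fintype.mem_piFinset, Fintype.mem_piFinset]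
        exact ⟨⟨fun i => mem_Icc.2 ⟨(mem_Icc.1 (g3 i)).1, g1 i⟩, fun i => mem_Icc.2 ⟨(mem_Icc.1 (g4 i)).1, g2 i⟩⟩, g5⟩)
      (by
        intro t ht
        rw [mem_filter, mem_product, Fintype.mem_piFinset, Fintype.mem_piFinset] at ht
        obtain ⟨⟨g1, g2⟩, -, -, g3, -⟩ := ht
        rw [mem_filter, Fintype.mem_piFinset]
        refine ⟨?_, ?_⟩
        · rintro (i | i)
          · exact g1 i
          · exact g2 i
        · rw [Fintype.prod_sum_type]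
          exact g3)
      (hCL N h₁ h₂ hN) p b hσ hB hp hb hpb hp0 hb0 hbn
    rw [← hk] at hA
    have hBj : ∀ j : ι₁ ⊕ ι₂, ∑ t ∈ S, q j (Sum.elim t.1 t.2 j) *
        ∏ i ∈ univ.erase j, (p i (Sum.elim t.1 t.2 i) + q i (Sum.elim t.1 t.2 i)) ≤
          C * (X : ℝ) ^ ε * (ρ * (2 * Λ) ^ (k - 1)) := by
      intro j
      have g1 := sum_T hSX (fun u => q j (u j) * ∏ i ∈ univ.erase j, (p i (u i) + q i (u i)))
        fun u => mul_nonneg (hq j _) (prod_nonneg fun i _ => add_nonneg (hp i _) (hq i _))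
      have g2 := partB hC X (fun w => hHY X w hX) p q hρ hΛ hp hq (fun i n hn => hp0 i n (hNX.trans_lt hn)) hq0
        hpn hqn j
      rw [hcardι] at g2
      exact g1.trans g2
    have hpt : ∀ t : (ι₁ → ℕ) × (ι₂ → ℕ), (∏ i, (p₁ i (t.1 i) + q₁ i (t.1 i))) * ∏ i, (p₂ i (t.2 i) + q₂ i (t.2 i)) ≤
        ∏ i, p i (Sum.elim t.1 t.2 i) + ∑ j, q j (Sum.elim t.1 t.2 j) *
          ∏ i ∈ univ.erase j, (p i (Sum.elim t.1 t.2 i) + q i (Sum.elim t.1 t.2 i)) := by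
      intro t
      have g1 := prod_add_le (univ : Finset (ι₁ ⊕ ι₂)) (fun i => p i (Sum.elim t.1 t.2 i))
        (fun i => q i (Sum.elim t.1 t.2 i)) (fun i => hp i _) (fun i => hq i _)
      refine le_trans (le_of_eq ?_) g1
      rw [Fintype.prod_sum_type]
      rfl
    calc ∑ t ∈ S, (∏ i, (p₁ i (t.1 i) + q₁ i (t.1 i))) * ∏ i, (p₂ i (t.2 i) + q₂ i (t.2 i))
        ≤ ∑ t ∈ S, (∏ i, p i (Sum.elim t.1 t.2 i) + ∑ j, q j (Sum.elim t.1 t.2 j) *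
          ∏ i ∈ univ.erase j, (p i (Sum.elim t.1 t.2 i) + q i (Sum.elim t.1 t.2 i))) := sum_le_sum fun t _ => hpt t
      _ = ∑ t ∈ S, ∏ i, p i (Sum.elim t.1 t.2 i) + ∑ j, ∑ t ∈ S, q j (Sum.elim t.1 t.2 j) *
          ∏ i ∈ univ.erase j, (p i (Sum.elim t.1 t.2 i) + q i (Sum.elim t.1 t.2 i)) := by
          rw [sum_add_distrib]
          congr 1
          exact sum_comm
      _ ≤ √(C₁ * C) * (X : ℝ) ^ ε * (σ ^ k * B ^ k *
            (N : ℝ) ^ (((Fintype.card ι₁ : ℝ) + Fintype.card ι₂) / 2 - c / 2)) +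
          ∑ _j : ι₁ ⊕ ι₂, C * (X : ℝ) ^ ε * (ρ * (2 * Λ) ^ (k - 1)) :=
          add_le_add hA (sum_le_sum fun j _ => hBj j)
      _ = √(C₁ * C) * (X : ℝ) ^ ε * (σ ^ k * B ^ k *
            (N : ℝ) ^ (((Fintype.card ι₁ : ℝ) + Fintype.card ι₂) / 2 - c / 2)) +
          (k * (C * 2 ^ (k - 1))) * (X : ℝ) ^ ε * (ρ * Λ ^ (k - 1)) := by
          rw [sum_const, card_univ, hcardι, nsmul_eq_mul, mul_pow]
          ring
      _ ≤ _ := by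
          have f1 : 0 ≤ (X : ℝ) ^ ε := by positivity
          have f2 : 0 ≤ σ ^ k * B ^ k * (N : ℝ) ^ (((Fintype.card ι₁ : ℝ) + Fintype.card ι₂) / 2 - c / 2) := by
            positivity
          have f3 : 0 ≤ ρ * Λ ^ (k - 1) := by positivity
          have f4 : 0 ≤ √(C₁ * C) := Real.sqrt_nonneg _
          have f5 : (0 : ℝ) ≤ k * (C * 2 ^ (k - 1)) := by positivity
          have g1 := mul_nonneg (mul_nonneg f4 f1) f3
          have g2 := mul_nonneg (mul_nonneg f5 f1) f2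
          nlinarith
  refine key _ fun t => ?_
  rw [mem_filter, mem_product, Fintype.mem_piFinset, Fintype.mem_piFinset]

end Pool.Agent.Q68.L2
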